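import Mathlib

/-!
# Basic definitions: the primes, the group `P`, truncation, and the coprime conjugacy lemma
-/

namespace Pool.Agent.Lib.MP_a1de5b_al

open Function

/-- the `n`-th prime -/
noncomputable def pr (n : ℕ) : ℕ := Nat.nth Nat.Prime n

lemma pr_prime (n : ℕ) : (pr n).Prime := Nat.prime_nth_prime n

lemma pr_strictMono : StrictMono pr := Nat.nth_strictMono Nat.infinite_setOfPred_prime

lemma pr_inj : Injective pr := pr_strictMono.injective

/-- the primes used for the layers -/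
noncomputable def p (i : ℕ) : ℕ := pr (2 * i)
/-- the label primes -/
noncomputable def ℓ (i : ℕ) : ℕ := pr (2 * i + 1)

lemma p_prime (i : ℕ) : (p i).Prime := pr_prime _
lemma ℓ_prime (i : ℕ) : (ℓ i).Prime := pr_prime _

instance (i : ℕ) : Fact (p i).Prime := ⟨p_prime i⟩
instance (i : ℕ) : Fact (ℓ i).Prime := ⟨ℓ_prime i⟩
instance (i : ℕ) : NeZero (p i) := ⟨(p_prime i).ne_zero⟩
instance (i : ℕ) : NeZero (ℓ i) := ⟨(ℓ_prime i).ne_zero⟩

lemma p_inj {i j : ℕ} (h : p i = p j) : i = j := by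
  have := pr_inj h
  omega

lemma ℓ_inj {i j : ℕ} (h : ℓ i = ℓ j) : i = j := by
  have := pr_inj h
  omega

lemma p_ne_ℓ (i j : ℕ) : p i ≠ ℓ j := by
  intro h
  have := pr_inj h
  omega

lemma lt_p (i : ℕ) : i < p i := by
  have h1 : 2 * i ≤ pr (2 * i) := pr_strictMono.id_le _
  have h2 := (p_prime i).two_le
  rcases Nat.eq_zero_or_pos i with h | h
  · subst h; omega
  · have : p i = pr (2 * i) := rfl
    omega

/-- The group `P = ∏_i C_{p_{i+1}}`. -/
abbrev P : Type := ∀ i : ℕ, Multiplicative (ZMod (p (i + 1)))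

/-- Truncation: keep the components with index `< n`. -/
noncomputable def trunc (n : ℕ) : P →* P where
  toFun b i := if i < n then b i else 1
  map_one' := by funext i; simp
  map_mul' a b := by
    funext i
    by_cases h : i < n <;> simp [h]

lemma trunc_apply (n : ℕ) (b : P) (i : ℕ) : trunc n b i = if i < n then b i else 1 := rfl

/-- The generator of the `j`-th factor. -/
noncomputable def β (j : ℕ) : P := Pi.mulSingle j (Multiplicative.ofAdd 1)

lemma trunc_β {n j : ℕ} (h : j < n) : trunc n (β j) = β j := by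
  funext i
  rw [trunc_apply]
  by_cases hi : i < n
  · simp [hi]
  · rw [if_neg hi]
    have : i ≠ j := by omega
    simp [β, this]

lemma trunc_trunc (m n : ℕ) (b : P) : trunc m (trunc n b) = trunc (min m n) b := by
  funext i
  simp only [trunc_apply]
  by_cases h1 : i < m <;> by_cases h2 : i < n <;> simp [h1, h2]

lemma trunc_of_le {m n : ℕ} (h : n ≤ m) (b : P) : trunc m (trunc n b) = trunc n b := by
  rw [trunc_trunc, min_eq_right h]

lemma trunc_of_ge {m n : ℕ} (h : m ≤ n) (b : P) : trunc m (trunc n b) = trunc m b := by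
  rw [trunc_trunc, min_eq_left h]

lemma β_pow (j : ℕ) : β j ^ p (j + 1) = 1 := by
  have h : (Multiplicative.ofAdd (1 : ZMod (p (j + 1)))) ^ p (j + 1) = 1 := by
    rw [← ofAdd_nsmul]
    simp
  unfold β
  rw [← Pi.mulSingle_pow, h, Pi.mulSingle_one]

lemma β_ne (j : ℕ) : β j j ≠ 1 := by
  simp only [β, Pi.mulSingle_eq_same]
  intro h
  have h2 : (1 : ZMod (p (j + 1))) = 0 := by
    have := congrArg Multiplicative.toAdd h
    exact this
  exact one_ne_zero h2

/-- an element of coprime order in a group of prime order is trivial -/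
lemma zmod_eq_one {q r : ℕ} [Fact q.Prime] (x : Multiplicative (ZMod q)) (h : x ^ r = 1)
    (hr : ¬ q ∣ r) : x = 1 := by
  have h1 : orderOf x ∣ r := orderOf_dvd_of_pow_eq_one h
  have h2 : orderOf x ∣ q := by
    have := orderOf_dvd_natCard x
    simpa using this
  rcases (Nat.dvd_prime Fact.out).1 h2 with h3 | h3
  · exact orderOf_eq_one_iff.1 h3
  · rw [h3] at h1; exact absurd h1 hr

lemma P_eq_one_of_pow {b : P} {r i : ℕ} (h : b ^ r = 1) (hr : ¬ p (i + 1) ∣ r) : b i = 1 := by
  apply zmod_eq_one (b i) (r := r) _ hr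
  have := congrFun h i
  simpa using this

/-! ### Fixed points and the coprime conjugacy lemma -/

lemma exists_fixed {α : Type*} [Finite α] {q : ℕ} [Fact q.Prime] (h : ¬ q ∣ Nat.card α)
    (T : Equiv.Perm α) (hT : T ^ q = 1) : ∃ a, T a = a := by
  classical
  have := Fintype.ofFinite α
  rw [Nat.card_eq_fintype_card] at h
  have := Equiv.Perm.exists_fixed_point_of_prime (p := q) (n := 1) h (σ := T) (by simpa using hT)
  exact this

/-- one step of the coprime conjugacy lemma -/
lemma ccl_step {X : Type*} [Group X] (C : Subgroup X) [Finite C] {q : ℕ} [Fact q.Prime]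
    (hq : ¬ q ∣ Nat.card C) (s t : X) (hs : s ^ q = 1) (ht : t ^ q = 1)
    (hst : ∀ ν ∈ C, s * ν * t⁻¹ ∈ C) :
    ∃ ν ∈ C, s = ν * t * ν⁻¹ := by
  have hinv : ∀ ν ∈ C, s⁻¹ * ν * t ∈ C := by
    intro ν hν
    have key : ∀ n : ℕ, ∀ ν ∈ C, s ^ n * ν * (t ^ n)⁻¹ ∈ C := by
      intro n
      induction n with
      | zero => intro ν hν; simpa using hν
      | succ n ih =>
        intro ν hν
        have := hst _ (ih ν hν)
        have e : s ^ (n + 1) * ν * (t ^ (n + 1))⁻¹ = s * (s ^ n * ν * (t ^ n)⁻¹) * t⁻¹ := by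
          rw [pow_succ' s, pow_succ' t]; group
        rw [e]; exact this
    have h1 : s⁻¹ = s ^ (q - 1) := by
      have hq0 : 1 ≤ q := (Fact.out : q.Prime).one_lt.le
      rw [inv_eq_iff_mul_eq_one, ← pow_succ', Nat.sub_add_cancel hq0, hs]
    have h2 : t = (t ^ (q - 1))⁻¹ := by
      have hq0 : 1 ≤ q := (Fact.out : q.Prime).one_lt.le
      rw [eq_inv_iff_mul_eq_one, ← pow_succ', Nat.sub_add_cancel hq0, ht]
    have := key (q - 1) ν hν
    rw [← h2, ← h1] at this
    exact this
  let T : Equiv.Perm C :=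
    { toFun := fun ν => ⟨s * ν * t⁻¹, hst ν ν.2⟩
      invFun := fun ν => ⟨s⁻¹ * ν * t, hinv ν ν.2⟩
      left_inv := by
        intro ν; ext
        change s⁻¹ * (s * ν * t⁻¹) * t = ν
        group
      right_inv := by
        intro ν; ext
        change s * (s⁻¹ * ν * t) * t⁻¹ = ν
        group }
  have hTpow : ∀ n : ℕ, ∀ ν : C, ((T ^ n) ν : X) = s ^ n * ν * (t ^ n)⁻¹ := by
    intro n
    induction n with
    | zero => intro ν; simp
    | succ n ih =>
      intro ν
      rw [pow_succ', Equiv.Perm.mul_apply]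
      change s * ((T ^ n) ν : X) * t⁻¹ = _
      rw [ih, pow_succ' s, pow_succ' t]; group
  have hT : T ^ q = 1 := by
    ext ν
    rw [hTpow, hs, ht]; simp
  obtain ⟨ν, hν⟩ := exists_fixed hq T hT
  refine ⟨ν, ν.2, ?_⟩
  have h3 : s * (ν : X) * t⁻¹ = ν := congrArg Subtype.val hν
  calc s = (s * (ν : X) * t⁻¹) * t * (ν : X)⁻¹ := by group
    _ = ν * t * (ν : X)⁻¹ := by rw [h3]

/-- **Coprime conjugacy lemma** for commuting families of elements of distinct prime orders. -/
theorem ccl {X : Type*} [Group X] (K : Subgroup X) [K.Normal] [Finite K] (n : ℕ)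
    (hK : ∀ j < n, ¬ p (j + 1) ∣ Nat.card K) (s t : ℕ → X)
    (hs : ∀ j < n, s j ^ p (j + 1) = 1) (ht : ∀ j < n, t j ^ p (j + 1) = 1)
    (hsc : ∀ j < n, ∀ k < n, Commute (s j) (s k)) (htc : ∀ j < n, ∀ k < n, Commute (t j) (t k))
    (hst : ∀ j < n, s j * (t j)⁻¹ ∈ K) :
    ∃ ν ∈ K, ∀ j < n, s j = ν * t j * ν⁻¹ := by
  induction n with
  | zero => exact ⟨1, K.one_mem, by intro j hj; omega⟩
  | succ n ih =>
    obtain ⟨ν₀, hν₀, h0⟩ := ih (fun j hj => hK j (by omega)) (fun j hj => hs j (by omega))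
      (fun j hj => ht j (by omega)) (fun j hj k hk => hsc j (by omega) k (by omega))
      (fun j hj k hk => htc j (by omega) k (by omega)) (fun j hj => hst j (by omega))
    -- replace `t` by its conjugate
    let t' : ℕ → X := fun j => ν₀ * t j * ν₀⁻¹
    have ht'c : ∀ j < n + 1, ∀ k < n + 1, Commute (t' j) (t' k) := by
      intro j hj k hk
      exact Commute.conj_iff ν₀ |>.2 (htc j hj k hk)
    have hC : ∀ j < n, t' j = s j := fun j hj => (h0 j hj).symm
    let Cn : Subgroup X := K ⊓ Subgroup.centralizer (s '' {j | j < n})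
    have : Finite Cn := by
      have : (Cn : Set X) ⊆ K := fun x hx => hx.1
      exact (Set.Finite.subset (Set.toFinite (K : Set X)) this).to_subtype
    have hcard : ¬ p (n + 1) ∣ Nat.card Cn := by
      intro h
      apply hK n (by omega)
      exact h.trans (Subgroup.card_dvd_of_le inf_le_left)
    have ht'n : t' n ^ p (n + 1) = 1 := by
      change (ν₀ * t n * ν₀⁻¹) ^ p (n + 1) = 1
      rw [conj_pow, ht n (by omega)]; group
    have hst' : s n * (t' n)⁻¹ ∈ K := by
      have h1 : s n * (t n)⁻¹ ∈ K := hst n (by omega)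
      have h2 : t n * (ν₀ * (t n)⁻¹ * ν₀⁻¹) ∈ K := by
        have e : t n * (ν₀ * (t n)⁻¹ * ν₀⁻¹) = (t n * ν₀ * (t n)⁻¹) * ν₀⁻¹ := by group
        rw [e]
        exact K.mul_mem (Subgroup.Normal.conj_mem inferInstance _ hν₀ _) (K.inv_mem hν₀)
      have e : s n * (t' n)⁻¹ = (s n * (t n)⁻¹) * (t n * (ν₀ * (t n)⁻¹ * ν₀⁻¹)) := by
        change s n * (ν₀ * t n * ν₀⁻¹)⁻¹ = _
        group
      rw [e]; exact K.mul_mem h1 h2
    have hmem : ∀ ν ∈ Cn, s n * ν * (t' n)⁻¹ ∈ Cn := by
      intro ν hνC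
      obtain ⟨hν, hν'⟩ := Subgroup.mem_inf.1 hνC
      refine Subgroup.mem_inf.2 ⟨?_, ?_⟩
      · have e : s n * ν * (t' n)⁻¹ = (s n * ν * (s n)⁻¹) * (s n * (t' n)⁻¹) := by group
        rw [e]
        exact K.mul_mem (Subgroup.Normal.conj_mem inferInstance _ hν _) hst'
      · rw [Subgroup.mem_centralizer_iff] at hν' ⊢
        rintro _ ⟨j, hj, rfl⟩
        have hj' : j < n := hj
        have c1 : Commute (s j) (s n) := hsc j (by omega) n (by omega)
        have c2 : Commute (s j) ν := hν' _ ⟨j, hj, rfl⟩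
        have c3 : Commute (s j) (t' n) := by
          rw [← hC j hj']
          exact ht'c j (by omega) n (by omega)
        exact ((c1.mul_right c2).mul_right c3.inv_right).eq
    obtain ⟨ν, hν, hν2⟩ := ccl_step Cn hcard (s n) (t' n) (hs n (by omega)) ht'n hmem
    refine ⟨ν * ν₀, K.mul_mem hν.1 hν₀, ?_⟩
    intro j hj
    have e : ν * ν₀ * t j * (ν * ν₀)⁻¹ = ν * t' j * ν⁻¹ := by
      change _ = ν * (ν₀ * t j * ν₀⁻¹) * ν⁻¹
      group
    rw [e]
    rcases Nat.lt_succ_iff_lt_or_eq.1 hj with h | h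
    · rw [hC j h]
      have := (Subgroup.mem_inf.1 hν).2
      rw [Subgroup.mem_centralizer_iff] at this
      have c : s j * ν = ν * s j := this _ ⟨j, h, rfl⟩
      rw [← c]; group
    · subst h; exact hν2

end Pool.Agent.Lib.MP_a1de5b_al
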