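import Pool.Agent.Lib.MP_a1de5b_al.Rig

/-!
# `G` is categorical
-/

namespace Pool.Agent.Lib.MP_a1de5b_al

open Function Filter

/-- The data extracted from local equivalence of `H` with `G`. -/
structure Ctx (H : Type) [Group H] where
  /-- the limit map -/
  ρ : H →* W
  star : ∀ (K : Subgroup H), Finite K → ∀ M : ℕ, ∃ f : K →* W, Injective f ∧
      (∀ x, f x ∈ G) ∧ ∀ x : K, ∀ m ≤ M, f x m = ρ x m
  fin : ∀ S : Set H, S.Finite → Finite (Subgroup.closure S)
  emb : ∀ n, ∃ φ : E n →* H, Injective φ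

namespace Ctx

variable {H : Type} [Group H] (C : Ctx H)

include C in
lemma isOfFinOrder (h : H) : IsOfFinOrder h := by
  have h1 := C.fin {h} (Set.finite_singleton h)
  have h2 : IsOfFinOrder (⟨h, Subgroup.subset_closure rfl⟩ : Subgroup.closure ({h} : Set H)) :=
    isOfFinOrder_of_finite _
  exact (Subgroup.subtype _).isOfFinOrder h2

lemma χP_one_of {w : W} {r i : ℕ} (hw : w ^ r = 1) (hr : 0 < r) (hi : r ≤ i) : χP w i = 1 := by
  apply P_eq_one_of_pow (r := r) (by rw [← map_pow, hw, map_one])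
  intro h
  have h1 := Nat.le_of_dvd hr h
  have h2 := lt_p (i + 1)
  omega

lemma χP_ρ_one {h : H} {i : ℕ} (hi : orderOf h ≤ i) : χP (C.ρ h) i = 1 :=
  χP_one_of (by rw [← map_pow, pow_orderOf_eq_one, map_one]) (C.isOfFinOrder h).orderOf_pos hi

lemma cp (h : H) : Cp (C.ρ h) := by
  intro m
  obtain ⟨f, hf, hfG, hfρ⟩ := C.star _ (C.fin {h} (Set.finite_singleton h)) m
  have hmem : h ∈ Subgroup.closure ({h} : Set H) := Subgroup.subset_closure rfl
  have h1 := (hfG ⟨h, hmem⟩).2.1 m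
  rw [hfρ ⟨h, hmem⟩ m le_rfl] at h1
  rw [h1]
  funext i
  rw [trunc_apply, trunc_apply]
  by_cases hi : i < m
  · rw [if_pos hi, if_pos hi, χP_apply, χP_apply, hfρ ⟨h, hmem⟩ (i + 1) (by omega)]
  · rw [if_neg hi, if_neg hi]

lemma fs (h : H) : FS (χP (C.ρ h)) := by
  refine ⟨orderOf h, ?_⟩
  funext i
  rw [trunc_apply]
  by_cases hi : i < orderOf h
  · rw [if_pos hi]
  · rw [if_neg hi, C.χP_ρ_one (by omega)]

lemma χP_f {K : Subgroup H} {f : K →* W} {M : ℕ} (hfρ : ∀ x : K, ∀ m ≤ M, f x m = C.ρ x m)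
    {x : K} (hx : orderOf (x : H) ≤ M) : χP (f x) = χP (C.ρ x) := by
  funext i
  by_cases hi : i + 1 ≤ M
  · rw [χP_apply, χP_apply, hfρ x _ hi]
  · rw [C.χP_ρ_one (by omega)]
    apply χP_one_of (r := orderOf (x : H)) _ (C.isOfFinOrder _).orderOf_pos (by omega)
    rw [← map_pow]
    have : x ^ orderOf (x : H) = 1 := by
      rw [Subgroup.orderOf_coe, pow_orderOf_eq_one]
    rw [this, map_one]

/-- Step 3 -/
lemma exists_e (j : ℕ) : ∃ e : H, e ^ p (j + 1) = 1 ∧ χP (C.ρ e) = β j := by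
  obtain ⟨φ, hφ⟩ := C.emb (j + 2)
  let ι' : A (j + 1) →* E (j + 2) := (ι (j + 1)).codRestrict (E (j + 2))
    (fun b => ι_mem_E (by omega) b)
  have hι' : Injective ι' := by
    intro b c hbc
    exact ι_inj (j + 1) (congrArg Subtype.val hbc)
  let θ : A (j + 1) →* H := φ.comp ι'
  have hθ : Injective θ := hφ.comp hι'
  have : Finite θ.range := Finite.of_surjective θ.rangeRestrict θ.rangeRestrict_surjective
  obtain ⟨f, hf, hfG, hfρ⟩ := C.star θ.range this (j + 1)
  have hinj : Injective (f.comp θ.rangeRestrict) := by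
    refine hf.comp ?_
    intro b c hbc
    exact hθ (congrArg Subtype.val hbc)
  obtain ⟨a, h1, h2⟩ := exists_a0 (f.comp θ.rangeRestrict) hinj
  have h3 : C.ρ (θ a) (j + 1) = σ (j + 1) (β j) := by
    rw [← h2]
    exact (hfρ (θ.rangeRestrict a) (j + 1) le_rfl).symm
  have h4 : (θ a) ^ p (j + 1) = 1 := by rw [← map_pow, h1, map_one]
  refine ⟨θ a, h4, ?_⟩
  funext i
  by_cases hi : i = j
  · subst hi
    exact χP_a0 h3
  · have h5 : β j i = 1 := by
      unfold β
      rw [Pi.mulSingle_eq_of_ne hi]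
    rw [h5]
    apply P_eq_one_of_pow (r := p (j + 1)) (by rw [← map_pow, ← map_pow, h4, map_one, map_one])
    intro h6
    have := (Nat.prime_dvd_prime_iff_eq (p_prime _) (p_prime _)).1 h6
    have := p_inj this
    omega

/-- Step 4 core -/
lemma core {x : H} {q k : ℕ} (hq : q.Prime) (hx : x ^ q ^ k = 1) (hχ : χP (C.ρ x) = 1) :
    ∃ (K : Subgroup H) (_ : Finite K) (hxK : x ∈ K) (M₀ : ℕ), ∀ f : K →* W, Injective f →
      (∀ x, f x ∈ G) → (∀ x : K, ∀ m ≤ M₀, f x m = C.ρ x m) →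
      ∀ m ≥ M₀, f ⟨x, hxK⟩ m = 1 := by
  rcases exists_p_or_ℓ hq with ⟨j, rfl⟩ | ⟨i, rfl⟩
  · obtain ⟨e, he, hχe⟩ := C.exists_e j
    have hfin : Finite (Subgroup.closure ({x, e} : Set H)) := C.fin _ (by simp)
    have hxK : x ∈ Subgroup.closure ({x, e} : Set H) := Subgroup.subset_closure (by simp)
    have heK : e ∈ Subgroup.closure ({x, e} : Set H) := Subgroup.subset_closure (by simp)
    refine ⟨Subgroup.closure {x, e}, hfin, hxK,
      Nat.card (Subgroup.closure ({x, e} : Set H)) + orderOf x + orderOf e + j + 1, ?_⟩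
    intro f hf hfG hfρ m hm
    have h1 : χP (f ⟨x, hxK⟩) = 1 := by
      have := C.χP_f hfρ (x := ⟨x, hxK⟩) (by change orderOf x ≤ _; omega)
      rw [this]; exact hχ
    have h2 : χP (f ⟨e, heK⟩) = β j := by
      have := C.χP_f hfρ (x := ⟨e, heK⟩) (by change orderOf e ≤ _; omega)
      rw [this]; exact hχe
    refine brk_apply f hfG (x := ⟨x, hxK⟩) (e := ⟨e, heK⟩) (j := j) (k := k)
      (Subtype.ext hx) h1 (Subtype.ext he) ?_ (m := m) (by omega) (by omega)
    rw [h2]; exact β_ne j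
  · have hfin : Finite (Subgroup.closure ({x} : Set H)) := C.fin _ (by simp)
    have hxK : x ∈ Subgroup.closure ({x} : Set H) := Subgroup.subset_closure (by simp)
    refine ⟨_, hfin, hxK, i + 1, ?_⟩
    intro f hf hfG hfρ m hm
    apply eq_one_of_ℓ (i := i) (k := k) (by omega)
    rw [← Pi.pow_apply, ← map_pow]
    have : (⟨x, hxK⟩ : Subgroup.closure ({x} : Set H)) ^ ℓ i ^ k = 1 := Subtype.ext hx
    rw [this, map_one]; rfl

lemma ev_prim {x : H} {q k : ℕ} (hq : q.Prime) (hx : x ^ q ^ k = 1) (hχ : χP (C.ρ x) = 1) :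
    ∃ M, ∀ m ≥ M, C.ρ x m = 1 := by
  obtain ⟨K, hK, hxK, M₀, h⟩ := C.core hq hx hχ
  refine ⟨M₀, ?_⟩
  intro m hm
  obtain ⟨f, hf, hfG, hfρ⟩ := C.star K hK m
  have h1 := h f hf hfG (fun x m' hm' => hfρ x m' (hm'.trans hm)) m hm
  rw [hfρ _ m le_rfl] at h1
  exact h1

lemma inj_prim {x : H} {q k : ℕ} (hq : q.Prime) (hx : x ^ q ^ k = 1) (hρ : C.ρ x = 1) :
    x = 1 := by
  obtain ⟨K, hK, hxK, M₀, h⟩ := C.core hq hx (by rw [hρ, map_one])
  obtain ⟨f, hf, hfG, hfρ⟩ := C.star K hK M₀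
  have h1 := h f hf hfG hfρ
  have h2 : f ⟨x, hxK⟩ = 1 := by
    funext m
    by_cases hm : m ≤ M₀
    · rw [hfρ _ m hm]
      change C.ρ x m = 1
      rw [hρ]; rfl
    · exact h1 m (by omega)
  have h3 : (⟨x, hxK⟩ : K) = 1 := by
    apply hf; rw [h2, map_one]
  exact congrArg Subtype.val h3

/-- Step 4 (a) -/
lemma ev_one {x : H} (hχ : χP (C.ρ x) = 1) : ∃ M, ∀ m ≥ M, C.ρ x m = 1 := by
  have h0 : ∀ q, ∃ M, q.Prime → ∀ m ≥ M,
      C.ρ (x ^ (orderOf x / q ^ (orderOf x).factorization q)) m = 1 := by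
    intro q
    by_cases hq : q.Prime
    · obtain ⟨M, hM⟩ := C.ev_prim hq (primary_pow x q)
        (by rw [map_pow, map_pow, hχ, one_pow])
      exact ⟨M, fun _ => hM⟩
    · exact ⟨0, fun h => absurd h hq⟩
  choose M hM using h0
  refine ⟨(Finset.range (orderOf x + 1)).sup M, ?_⟩
  intro m hm
  change ((ev m).comp C.ρ) x = 1
  apply eq_one_of_primary _ x (C.isOfFinOrder x)
  intro q hq hqx
  apply hM q hq m
  have h1 : q ∈ Finset.range (orderOf x + 1) := by
    rw [Finset.mem_range]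
    have := Nat.le_of_dvd (C.isOfFinOrder x).orderOf_pos hqx
    omega
  exact (Finset.le_sup (f := M) h1).trans hm

/-- Step 5 -/
lemma ρ_inj : Injective C.ρ := by
  rw [injective_iff_map_eq_one]
  intro x hx
  by_contra hne
  have h1 : orderOf x ≠ 1 := fun h => hne (orderOf_eq_one_iff.1 h)
  obtain ⟨q, hq, hq2⟩ := Nat.exists_prime_and_dvd h1
  apply primary_ne hq (C.isOfFinOrder x) hq2
  exact C.inj_prim hq (primary_pow x q) (by rw [map_pow, hx, one_pow])

/-- Step 6 -/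
lemma surj_single {m : ℕ} {a : A m} (ha : χ m a = 1) : ∃ h : H, C.ρ h = Pi.mulSingle m a := by
  set M := Nat.card (E (m + 2)) + m + 2 with hM
  obtain ⟨φ, hφ⟩ := C.emb (M + 1)
  have hm : m < M + 1 := by omega
  have h1 : ∀ b : (χ m).ker, ∀ m', m' ≠ m → C.ρ (φ (sg hm b)) m' = 1 := by
    intro b m' hm'
    have hfin : Finite φ.range := Finite.of_surjective φ.rangeRestrict φ.rangeRestrict_surjective
    obtain ⟨f, hf, hfG, hfρ⟩ := C.star φ.range hfin m'
    have hinj : Injective (f.comp φ.rangeRestrict) := by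
      refine hf.comp ?_
      intro b c hbc
      exact hφ (congrArg Subtype.val hbc)
    have h2 := rigid_single (m := m) (M := M) (by omega) (by omega) (f.comp φ.rangeRestrict) hinj
      (fun x => hfG _) hm b hm'
    have h3 := hfρ (φ.rangeRestrict (sg hm b)) m' le_rfl
    rw [← h2]
    exact h3.symm
  have h2 : ∀ b : (χ m).ker, C.ρ (φ (sg hm b)) m ∈ (χ m).ker := by
    intro b
    rw [MonoidHom.mem_ker, C.cp]
    have h3 : χP (C.ρ (φ (sg hm b))) = 1 := by
      funext i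
      by_cases hi : i < m
      · rw [← (C.cp _).apply (by omega : i < m + 1), h1 b (m + 1) (by omega), map_one]
      · apply P_eq_one_of_pow (r := Nat.card (A m)) _ (p_not_dvd (by omega))
        rw [← map_pow, ← map_pow, ← map_pow, ← map_pow]
        have : b ^ Nat.card (A m) = 1 := by
          apply Subtype.ext
          change b.1 ^ _ = 1
          exact pow_card_eq_one'
        rw [this, map_one, map_one, map_one, map_one]
    rw [h3, map_one]
  let g : (χ m).ker → (χ m).ker := fun b => ⟨_, h2 b⟩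
  have hg : Injective g := by
    intro b c hbc
    have h3 : C.ρ (φ (sg hm b)) = C.ρ (φ (sg hm c)) := by
      funext m'
      by_cases hm' : m' = m
      · subst hm'; exact congrArg Subtype.val hbc
      · rw [h1 b m' hm', h1 c m' hm']
    have h4 := congrArg (fun w : E (M + 1) => w.1 m) (hφ (C.ρ_inj h3))
    have h5 : (Pi.mulSingle m b.1 : W) m = (Pi.mulSingle m c.1 : W) m := h4
    rw [Pi.mulSingle_eq_same, Pi.mulSingle_eq_same] at h5
    exact Subtype.ext h5
  obtain ⟨b, hb⟩ := (Finite.injective_iff_surjective.1 hg) ⟨a, ha⟩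
  have hb' : C.ρ (φ (sg hm b)) m = a := congrArg Subtype.val hb
  refine ⟨φ (sg hm b), ?_⟩
  funext m'
  by_cases hm' : m' = m
  · subst hm'; rw [hb', Pi.mulSingle_eq_same]
  · rw [h1 b m' hm', Pi.mulSingle_eq_of_ne hm']

/-- Step 7 -/
lemma exists_conj (e : ℕ → H) (he : ∀ j, e j ^ p (j + 1) = 1) (hχe : ∀ j, χP (C.ρ (e j)) = β j)
    (n : ℕ) : ∃ M, ∀ m ≥ M, ∃ a : A m, ∀ j < n, C.ρ (e j) m = a * σ m (β j) * a⁻¹ := by
  have h0 : ∀ j k, ∃ M, ∀ m ≥ M, C.ρ (e j * e k * (e j)⁻¹ * (e k)⁻¹) m = 1 := by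
    intro j k
    apply C.ev_one
    simp only [map_mul, map_inv]
    rw [mul_comm (χP (C.ρ (e j))) (χP (C.ρ (e k)))]
    group
  choose M hM using h0
  refine ⟨((Finset.range (n + 1)) ×ˢ (Finset.range (n + 1))).sup (fun x => M x.1 x.2) + n + 1, ?_⟩
  intro m hm
  apply cnjA (by omega : n < m) (fun j => C.ρ (e j) m)
  · intro j _
    rw [← Pi.pow_apply, ← map_pow, he, map_one]; rfl
  · intro j hj
    rw [C.cp, hχe, trunc_β (by omega)]
  · intro j hj k hk
    have h1 : M j k ≤ m := by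
      have h2 : (j, k) ∈ (Finset.range (n + 1)) ×ˢ (Finset.range (n + 1)) := by
        rw [Finset.mem_product, Finset.mem_range, Finset.mem_range]
        exact ⟨by omega, by omega⟩
      have := Finset.le_sup (f := fun x : ℕ × ℕ => M x.1 x.2) h2
      simp only at this
      omega
    have h3 := hM j k m h1
    simp only [map_mul, map_inv, Pi.mul_apply, Pi.inv_apply] at h3
    change C.ρ (e j) m * C.ρ (e k) m = C.ρ (e k) m * C.ρ (e j) m
    rw [mul_inv_eq_one, mul_inv_eq_iff_eq_mul] at h3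
    exact h3

lemma exists_conj' (e : ℕ → H) (he : ∀ j, e j ^ p (j + 1) = 1)
    (hχe : ∀ j, χP (C.ρ (e j)) = β j) :
    ∃ a : ∀ m, A m, ∀ j, ∃ M, ∀ m ≥ M, C.ρ (e j) m = a m * σ m (β j) * (a m)⁻¹ := by
  classical
  let Pr : ℕ → ℕ → Prop := fun m n => ∃ a : A m, ∀ j < n, C.ρ (e j) m = a * σ m (β j) * a⁻¹
  have hP0 : ∀ m, Pr m 0 := fun m => ⟨1, by intro j hj; omega⟩
  have hspec : ∀ m, Pr m (Nat.findGreatest (Pr m) m) := fun m =>
    Nat.findGreatest_spec (Nat.zero_le m) (hP0 m)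
  choose a ha using hspec
  refine ⟨a, ?_⟩
  intro j
  obtain ⟨M, hM⟩ := C.exists_conj e he hχe (j + 1)
  refine ⟨max M (j + 1), ?_⟩
  intro m hm
  apply ha m j
  have h1 : Pr m (j + 1) := hM m (le_trans (le_max_left _ _) hm)
  have h2 : j + 1 ≤ Nat.findGreatest (Pr m) m :=
    Nat.le_findGreatest (le_trans (le_max_right _ _) hm) h1
  omega

end Ctx

end Pool.Agent.Lib.MP_a1de5b_al
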