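import Pool.Agent.Lib.MP_a1de5b_al.Stage

/-!
# Coordinates: the finite groups `A m = (C_{ℓ m} ≀ Q)`
-/

namespace Pool.Agent.Lib.MP_a1de5b_al

open Function

/-- The coordinate structure. -/
structure Coord (m : ℕ) where
  /-- the group -/
  A : Type
  [grp : Group A]
  [fin : Finite A]
  /-- the character -/
  χ : A →* P
  /-- the section -/
  σ : P →* A
  χσ : ∀ b, χ (σ b) = trunc m b
  σt : ∀ b, σ (trunc m b) = σ b
  tχ : ∀ x, trunc m (χ x) = χ x
  /-- the label subgroup -/
  L : Subgroup A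
  L_pow : ∀ x ∈ L, x ^ ℓ m = 1
  mem_L : ∀ x, x ^ ℓ m = 1 → x ∈ L
  L_cent : ∀ x, (∀ y ∈ L, x * y = y * x) → x ∈ L
  primes : ∀ r, r.Prime → r ∣ Nat.card A → r = ℓ m ∨ ∃ j ≤ m, r = p j
  solv : Group.IsSolvable A
  brk : ∀ j < m, Brk χ (m + 2) j
  cnj : ∀ n < m, Cnj χ σ n
  base : ∃ x, χ x = 1 ∧ orderOf x = p 0

attribute [instance] Coord.grp Coord.fin

section ext

variable {m : ℕ} (S : Stage (m + 2) m)

/-- the regular module -/
abbrev Rm : Type := S.Q → Multiplicative (ZMod (ℓ m))

/-- the label extension -/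
abbrev Xl : Type := Rm S ⋊[(mulAutArrow : S.Q →* MulAut (S.Q → Multiplicative (ZMod (ℓ m))))] S.Q

instance : Finite (Rm S) := inferInstance

instance : Finite (Xl S) := Finite.of_equiv _ (SemidirectProduct.equivProd).symm

/-- projection -/
noncomputable def πl : Xl S →* S.Q := SemidirectProduct.rightHom

lemma πl_surj : Surjective (πl S) := SemidirectProduct.rightHom_surjective

lemma Rm_pow (f : Rm S) : f ^ ℓ m = 1 := by
  funext x
  have : (Multiplicative.toAdd (f x ^ ℓ m)) = 0 := by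
    rw [toAdd_pow]; simp
  exact this

lemma card_Rm : ∃ k, Nat.card (Rm S) = ℓ m ^ k :=
  IsPGroup.iff_card.1 (fun f => ⟨1, by rw [pow_one]; exact Rm_pow S f⟩)

lemma card_kerl : Nat.card (πl S).ker = Nat.card (Rm S) := by
  unfold πl
  rw [← SemidirectProduct.range_inl_eq_ker_rightHom]
  exact (Nat.card_congr (MonoidHom.ofInjective SemidirectProduct.inl_injective).toEquiv).symm

lemma not_dvd_kerl (j : ℕ) : ¬ p j ∣ Nat.card (πl S).ker := by
  rw [card_kerl]
  obtain ⟨k, hk⟩ := card_Rm S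
  rw [hk]
  intro h
  have h1 := (p_prime j).dvd_of_dvd_pow h
  have h2 := (Nat.prime_dvd_prime_iff_eq (p_prime j) (ℓ_prime m)).1 h1
  exact p_ne_ℓ _ _ h2

lemma not_ℓ_dvd_Q (k : ℕ) : ¬ ℓ k ∣ Nat.card S.Q := by
  intro h
  obtain ⟨j, hj, hj2⟩ := S.primes _ (ℓ_prime k) h
  exact p_ne_ℓ _ _ hj2.symm

lemma mem_range_inl {x : Xl S} : x ∈ (SemidirectProduct.inl : Rm S →* Xl S).range ↔ x.right = 1 := by
  rw [SemidirectProduct.range_inl_eq_ker_rightHom]; rfl

/-- the coordinate built from a stage -/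
noncomputable def coordOf : Coord m where
  A := Xl S
  χ := S.χ.comp (πl S)
  σ := SemidirectProduct.inr.comp S.σ
  χσ b := S.χσ b
  σt b := by simp [S.σt]
  tχ x := S.tχ _
  L := (SemidirectProduct.inl : Rm S →* Xl S).range
  L_pow := by
    rintro _ ⟨f, rfl⟩
    rw [← map_pow, Rm_pow, map_one]
  mem_L := by
    intro x hx
    rw [mem_range_inl]
    apply eq_one_of_coprime' (ℓ_prime m) (not_ℓ_dvd_Q S m) (k := 1)
    have := congrArg (πl S) hx
    rw [map_pow, map_one] at this
    rw [pow_one]; exact this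
  L_cent := by
    classical
    intro x hx
    rw [mem_range_inl]
    by_contra hne
    set f0 : Rm S := Pi.mulSingle (M := fun _ => Multiplicative (ZMod (ℓ m))) 1
      (Multiplicative.ofAdd (1 : ZMod (ℓ m))) with hf0
    have h1 := hx (SemidirectProduct.inl f0) ⟨_, rfl⟩
    have h2 := congrArg SemidirectProduct.left h1
    rw [SemidirectProduct.mul_left, SemidirectProduct.mul_left, SemidirectProduct.left_inl,
      SemidirectProduct.right_inl] at h2
    have e1 : (mulAutArrow (1 : S.Q) : MulAut (S.Q → Multiplicative (ZMod (ℓ m)))) = 1 := map_one _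
    rw [e1, MulAut.one_apply, mul_comm] at h2
    have h3 := congrFun (mul_right_cancel h2) x.right
    have h4 : ((mulAutArrow x.right : MulAut (S.Q → Multiplicative (ZMod (ℓ m)))) f0) x.right
      = f0 (x.right⁻¹ * x.right) := rfl
    rw [h4, inv_mul_cancel, hf0, Pi.mulSingle_eq_same, Pi.mulSingle_eq_of_ne hne] at h3
    have h5 := congrArg Multiplicative.toAdd h3
    exact one_ne_zero h5
  primes := by
    intro r hr h
    rw [SemidirectProduct.card] at h
    rcases (Nat.Prime.dvd_mul hr).1 h with h1 | h1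
    · obtain ⟨k, hk⟩ := card_Rm S
      rw [hk] at h1
      exact Or.inl ((Nat.prime_dvd_prime_iff_eq hr (ℓ_prime _)).1 (hr.dvd_of_dvd_pow h1))
    · exact Or.inr (S.primes r hr h1)
  solv := by
    have h2 := S.solv
    exact Group.isSolvable_of_ker_le_range (SemidirectProduct.inl : Rm S →* Xl S)
      (SemidirectProduct.rightHom) (SemidirectProduct.range_inl_eq_ker_rightHom).ge
  brk j hj := (S.brk j hj).lift hj (fun x => S.tχ _) (not_dvd_kerl S j)
  cnj n hn := (S.cnj n hn).lift hn (πl_surj S) (fun x => S.tχ _) (fun b => rfl)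
    (fun j _ => not_dvd_kerl S _)
  base := by
    obtain ⟨x, hx, hx2⟩ := S.base
    refine ⟨SemidirectProduct.inr x, hx, ?_⟩
    rw [orderOf_injective _ SemidirectProduct.inr_injective]; exact hx2

end ext

/-- The coordinates. -/
noncomputable def coord (m : ℕ) : Coord m :=
  haveI : NeZero (m + 2) := ⟨by omega⟩
  coordOf (stage (m + 2) (by omega) m)

/-- the coordinate groups -/
def A (m : ℕ) : Type := (coord m).A

noncomputable instance (m : ℕ) : Group (A m) := (coord m).grp
instance (m : ℕ) : Finite (A m) := (coord m).fin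

/-- the characters -/
noncomputable def χ (m : ℕ) : A m →* P := (coord m).χ
/-- the sections -/
noncomputable def σ (m : ℕ) : P →* A m := (coord m).σ
/-- the label subgroups -/
noncomputable def L (m : ℕ) : Subgroup (A m) := (coord m).L

lemma χσ (m : ℕ) (b : P) : χ m (σ m b) = trunc m b := (coord m).χσ b
lemma σt (m : ℕ) (b : P) : σ m (trunc m b) = σ m b := (coord m).σt b
lemma tχ (m : ℕ) (x : A m) : trunc m (χ m x) = χ m x := (coord m).tχ x
lemma L_pow {m : ℕ} {x : A m} (h : x ∈ L m) : x ^ ℓ m = 1 := (coord m).L_pow x h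
lemma mem_L {m : ℕ} {x : A m} (h : x ^ ℓ m = 1) : x ∈ L m := (coord m).mem_L x h
lemma L_cent {m : ℕ} {x : A m} (h : ∀ y ∈ L m, x * y = y * x) : x ∈ L m := (coord m).L_cent x h
lemma primesA {m r : ℕ} (hr : r.Prime) (h : r ∣ Nat.card (A m)) :
    r = ℓ m ∨ ∃ j ≤ m, r = p j := (coord m).primes r hr h
lemma solvA (m : ℕ) : Group.IsSolvable (A m) := (coord m).solv
lemma brkA {m j : ℕ} (h : j < m) : Brk (χ m) (m + 2) j := (coord m).brk j h
lemma cnjA {m n : ℕ} (h : n < m) : Cnj (χ m) (σ m) n := (coord m).cnj n h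
lemma baseA (m : ℕ) : ∃ x : A m, χ m x = 1 ∧ orderOf x = p 0 := (coord m).base

end Pool.Agent.Lib.MP_a1de5b_al
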