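import Pool.Agent.Lib.MP_a1de5b_al.Cat

/-!
# Assembly
-/

namespace Pool.Agent.Lib.MP_a1de5b_al

open Function Filter

lemma trunc_step {n : ℕ} {b : P} (h : trunc (n + 1) b = b) :
    ∃ k : ℕ, trunc n (b * (β n ^ k)⁻¹) = b * (β n ^ k)⁻¹ := by
  refine ⟨(Multiplicative.toAdd (b n)).val, ?_⟩
  funext i
  rw [trunc_apply]
  by_cases hi : i < n
  · rw [if_pos hi]
  · rw [if_neg hi]
    rcases Nat.lt_or_ge n i with h1 | h1
    · have h2 : b i = 1 := by
        rw [← h, trunc_apply, if_neg (by omega)]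
      have h3 : β n i = 1 := by
        unfold β
        rw [Pi.mulSingle_eq_of_ne (by omega)]
      rw [Pi.mul_apply, Pi.inv_apply, Pi.pow_apply, h2, h3]; simp
    · have h4 : i = n := by omega
      subst h4
      have h3 : β i i = Multiplicative.ofAdd 1 := by
        unfold β
        rw [Pi.mulSingle_eq_same]
      rw [Pi.mul_apply, Pi.inv_apply, Pi.pow_apply, h3, ← ofAdd_nsmul]
      simp

/-- a subgroup of `P` containing all `β j` contains all finitely supported elements -/
lemma FS_mem (V : Subgroup P) (hV : ∀ j, β j ∈ V) {b : P} (hb : FS b) : b ∈ V := by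
  obtain ⟨n, hn⟩ := hb
  induction n generalizing b with
  | zero => rw [← hn, trunc_zero]; exact V.one_mem
  | succ n ih =>
    obtain ⟨k, hk⟩ := trunc_step hn
    have h1 := ih hk
    have h2 := V.mul_mem h1 (V.pow_mem (hV n) k)
    rwa [inv_mul_cancel_right] at h2

namespace Ctx

variable {H : Type} [Group H] (C : Ctx H)

/-- `χP ∘ ρ` hits every finitely supported element -/
lemma surj_χ {b : P} (hb : FS b) : ∃ h, χP (C.ρ h) = b := by
  have h1 := FS_mem (χP.comp C.ρ).range (fun j => by
    obtain ⟨e, _, he⟩ := C.exists_e j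
    exact ⟨e, he⟩) hb
  exact h1

include C in
/-- Step 8 -/
theorem iso : Nonempty (G ≃* H) := by
  have h0 := C.exists_e
  choose e he hχe using h0
  obtain ⟨a, ha⟩ := C.exists_conj' e he hχe
  let Θ : H →* W :=
    { toFun := fun h m => (a m)⁻¹ * C.ρ h m * a m
      map_one' := by
        funext m
        rw [map_one, Pi.one_apply]; group
      map_mul' := by
        intro x y
        funext m
        rw [map_mul, Pi.mul_apply, Pi.mul_apply]; group }
  have hΘ : ∀ h m, Θ h m = (a m)⁻¹ * C.ρ h m * a m := fun _ _ => rfl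
  have hχΘ : ∀ h m, χ m (Θ h m) = χ m (C.ρ h m) := by
    intro h m
    rw [hΘ, map_mul, map_mul, map_inv, mul_comm, mul_inv_cancel_left]
  have hχPΘ : ∀ h, χP (Θ h) = χP (C.ρ h) := by
    intro h
    funext i
    rw [χP_apply, χP_apply, hχΘ]
  have hΘinj : Injective Θ := by
    rw [injective_iff_map_eq_one]
    intro h hh
    apply C.ρ_inj
    rw [map_one]
    funext m
    have h1 : (a m)⁻¹ * C.ρ h m * a m = 1 := congrFun hh m
    have h2 : C.ρ h m = a m * ((a m)⁻¹ * C.ρ h m * a m) * (a m)⁻¹ := by group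
    rw [h2, h1]; simp
  -- the subgroup of good elements
  let T : Subgroup H :=
    { carrier := {h | ∃ M, ∀ m ≥ M, Θ h m = σ m (χP (C.ρ h))}
      one_mem' := ⟨0, by intro m _; rw [map_one, map_one, map_one, map_one]; rfl⟩
      mul_mem' := by
        rintro x y ⟨M, hM⟩ ⟨M', hM'⟩
        refine ⟨max M M', ?_⟩
        intro m hm
        rw [map_mul, map_mul, map_mul, map_mul, Pi.mul_apply, hM m (le_trans (le_max_left _ _) hm),
          hM' m (le_trans (le_max_right _ _) hm)]
      inv_mem' := by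
        rintro x ⟨M, hM⟩
        refine ⟨M, ?_⟩
        intro m hm
        rw [map_inv, map_inv, map_inv, map_inv, Pi.inv_apply, hM m hm] }
  have hTe : ∀ j, e j ∈ T := by
    intro j
    obtain ⟨M, hM⟩ := ha j
    refine ⟨M, ?_⟩
    intro m hm
    rw [hΘ, hM m hm, hχe]; group
  have hTker : ∀ h, χP (C.ρ h) = 1 → h ∈ T := by
    intro h hh
    obtain ⟨M, hM⟩ := C.ev_one hh
    refine ⟨M, ?_⟩
    intro m hm
    rw [hΘ, hM m hm, hh, map_one]; group
  have hTn : ∀ n h, trunc n (χP (C.ρ h)) = χP (C.ρ h) → h ∈ T := by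
    intro n
    induction n with
    | zero =>
      intro h hh
      apply hTker
      rw [← hh, trunc_zero]
    | succ n ih =>
      intro h hh
      obtain ⟨k, hk⟩ := trunc_step hh
      have h1 : h * (e n ^ k)⁻¹ ∈ T := by
        apply ih
        simp only [map_mul, map_inv, map_pow, hχe]
        simp only [map_mul, map_inv, map_pow] at hk
        exact hk
      have h2 := T.mul_mem h1 (T.pow_mem (hTe n) k)
      rwa [inv_mul_cancel_right] at h2
  have hTall : ∀ h, h ∈ T := by
    intro h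
    obtain ⟨n, hn⟩ := C.fs h
    exact hTn n h hn
  have hΘG : ∀ h, Θ h ∈ G := by
    intro h
    obtain ⟨M, hM⟩ := hTall h
    refine ⟨by rw [hχPΘ]; exact C.fs h, ?_, M, ?_⟩
    · intro m
      rw [hχΘ, hχPΘ, C.cp]
    · intro m hm
      rw [hχPΘ]; exact hM m hm
  -- surjectivity
  have hsingle : ∀ (m : ℕ) (x : A m), χ m x = 1 → ∃ h, Θ h = Pi.mulSingle m x := by
    intro m x hx
    obtain ⟨h, hh⟩ := C.surj_single (m := m) (a := a m * x * (a m)⁻¹)
      (by rw [map_mul, map_mul, map_inv, hx, mul_one, mul_inv_cancel])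
    refine ⟨h, ?_⟩
    funext m'
    rw [hΘ, hh]
    by_cases hm : m' = m
    · subst hm; rw [Pi.mulSingle_eq_same, Pi.mulSingle_eq_same]; group
    · rw [Pi.mulSingle_eq_of_ne hm, Pi.mulSingle_eq_of_ne hm]; group
  have hfinsupp : ∀ n, ∀ w : W, w ∈ G → χP w = 1 → (∀ m ≥ n, w m = 1) → ∃ h, Θ h = w := by
    intro n
    induction n with
    | zero =>
      intro w _ _ hw
      refine ⟨1, ?_⟩
      rw [map_one]
      funext m
      exact (hw m (Nat.zero_le m)).symm
    | succ n ih =>
      intro w hwG hχw hw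
      have h1 : χ n (w n) = 1 := by rw [hwG.2.1, hχw, map_one]
      obtain ⟨h, hh⟩ := hsingle n (w n) h1
      obtain ⟨h', hh'⟩ := ih (w * (Pi.mulSingle n (w n))⁻¹)
        (G.mul_mem hwG (G.inv_mem (E_le_G (n + 1) (mulSingle_mem_E (by omega) h1))))
        (by rw [map_mul, map_inv, χP_mulSingle h1, hχw]; simp)
        (by
          intro m hm
          rw [Pi.mul_apply, Pi.inv_apply]
          rcases Nat.lt_or_ge n m with h2 | h2
          · rw [hw m (by omega), Pi.mulSingle_eq_of_ne (by omega)]; simp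
          · have : m = n := by omega
            subst this
            rw [Pi.mulSingle_eq_same, mul_inv_cancel])
      refine ⟨h' * h, ?_⟩
      rw [map_mul, hh', hh, inv_mul_cancel_right]
  have hsurj : ∀ g ∈ G, ∃ h, Θ h = g := by
    intro g hg
    obtain ⟨h, hh⟩ := C.surj_χ hg.1
    have h1 : g⁻¹ * Θ h ∈ G := G.mul_mem (G.inv_mem hg) (hΘG h)
    have h2 : χP (g⁻¹ * Θ h) = 1 := by
      rw [map_mul, map_inv, hχPΘ, hh, inv_mul_cancel]
    obtain ⟨n, hn⟩ := exists_mem_E h1
    obtain ⟨h', hh'⟩ := hfinsupp n _ h1 h2 (by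
      intro m hm
      rw [hn.2.2 m hm, h2, map_one])
    refine ⟨h * h'⁻¹, ?_⟩
    rw [map_mul, map_inv, hh']; group
  let Θ' : H →* G := Θ.codRestrict G hΘG
  have hbij : Bijective Θ' := by
    constructor
    · intro x y hxy
      exact hΘinj (congrArg Subtype.val hxy)
    · rintro ⟨g, hg⟩
      obtain ⟨h, hh⟩ := hsurj g hg
      exact ⟨h, Subtype.ext hh⟩
  exact ⟨(MulEquiv.ofBijective Θ' hbij).symm⟩

end Ctx

/-- **`G` is categorical.** -/
theorem G_categorical (H : Type) [Group H]
    (h1 : ∀ K : Subgroup G, K.FG → ∃ L : Subgroup H, Nonempty (K ≃* L))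
    (h2 : ∀ L : Subgroup H, L.FG → ∃ K : Subgroup G, Nonempty (L ≃* K)) :
    Nonempty (G ≃* H) := by
  have hH : ∀ K : Subgroup H, K.FG → ∃ f : K →* W, Injective f ∧ ∀ x, f x ∈ G := by
    intro K hK
    obtain ⟨K', ⟨e⟩⟩ := h2 K hK
    refine ⟨(G.subtype.comp K'.subtype).comp e.toMonoidHom, ?_, ?_⟩
    · exact (Subtype.val_injective.comp Subtype.val_injective).comp e.injective
    · intro x
      exact (e x).1.2
  obtain ⟨ρ, hρ⟩ := exists_rho hH
  refine Ctx.iso ⟨ρ, hρ, ?_, ?_⟩
  · intro S hS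
    have hFG : (Subgroup.closure S).FG := ⟨hS.toFinset, by simp⟩
    obtain ⟨f, hf, hfG⟩ := hH _ hFG
    have h3 : (Set.range (fun s : S => f ⟨s, Subgroup.subset_closure s.2⟩)).Finite := by
      have := hS.to_subtype
      exact Set.finite_range _
    obtain ⟨n, hn⟩ := exists_E_of_finite h3 (by rintro _ ⟨s, rfl⟩; exact hfG _)
    have h4 : ∀ x : Subgroup.closure S, f x ∈ E n := by
      rintro ⟨x, hx⟩
      induction hx using Subgroup.closure_induction with
      | mem x hx => exact hn ⟨⟨x, hx⟩, rfl⟩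
      | one => 
        have : f ⟨1, Subgroup.one_mem _⟩ = 1 := map_one f
        rw [this]; exact (E n).one_mem
      | mul x y hx hy ihx ihy =>
        have : f ⟨x * y, Subgroup.mul_mem _ hx hy⟩ = f ⟨x, hx⟩ * f ⟨y, hy⟩ := map_mul f ⟨x, hx⟩ ⟨y, hy⟩
        rw [this]; exact (E n).mul_mem ihx ihy
      | inv x hx ihx =>
        have : f ⟨x⁻¹, Subgroup.inv_mem _ hx⟩ = (f ⟨x, hx⟩)⁻¹ := map_inv f ⟨x, hx⟩
        rw [this]; exact (E n).inv_mem ihx
    exact Finite.of_injective (fun x => (⟨f x, h4 x⟩ : E n)) (by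
      intro x y hxy
      exact hf (congrArg Subtype.val hxy))
  · intro n
    have hfin : Finite ((E n).subgroupOf G) := by
      apply Finite.of_injective (fun x : (E n).subgroupOf G => (⟨x.1.1, x.2⟩ : E n))
      intro x y hxy
      apply Subtype.ext
      apply Subtype.ext
      exact congrArg (fun z : E n => z.1) hxy
    have hFG : ((E n).subgroupOf G).FG := by
      rw [← Group.fg_iff_subgroup_fg]
      infer_instance
    obtain ⟨L', ⟨e⟩⟩ := h1 _ hFG
    let i : E n →* (E n).subgroupOf G :=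
      { toFun := fun x => ⟨⟨x.1, E_le_G n x.2⟩, x.2⟩
        map_one' := rfl
        map_mul' := fun _ _ => rfl }
    have hi : Injective i := by
      intro x y hxy
      apply Subtype.ext
      exact congrArg (fun z : (E n).subgroupOf G => z.1.1) hxy
    exact ⟨(L'.subtype.comp e.toMonoidHom).comp i,
      (Subtype.val_injective.comp e.injective).comp hi⟩

/-! ### torsion and local solubility -/

theorem G_torsion : IsMulTorsion G := by
  rintro ⟨g, hg⟩
  obtain ⟨n, hn⟩ := exists_mem_E hg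
  have h1 : IsOfFinOrder (⟨g, hn⟩ : E n) := isOfFinOrder_of_finite _
  have h2 : IsOfFinOrder g := (E n).subtype.isOfFinOrder h1
  obtain ⟨k, hk, hk2⟩ := isOfFinOrder_iff_pow_eq_one.1 h2
  exact isOfFinOrder_iff_pow_eq_one.2 ⟨k, hk, Subtype.ext hk2⟩

lemma pi_solvable {κ : Type} [Finite κ] (B : κ → Type) [∀ i, Group (B i)]
    (h : ∀ i, Group.IsSolvable (B i)) : Group.IsSolvable (∀ i, B i) := by
  have := Fintype.ofFinite κ
  choose n hn using fun i => (h i).solvable
  refine ⟨Finset.univ.sup n, ?_⟩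
  rw [eq_bot_iff]
  intro x hx
  rw [Subgroup.mem_bot]
  funext i
  have h1 : x i ∈ derivedSeries (B i) (Finset.univ.sup n) :=
    map_derivedSeries_le_derivedSeries (Pi.evalMonoidHom B i) _ ⟨x, hx, rfl⟩
  have h2 := derivedSeries_antitone _ (Finset.le_sup (f := n) (Finset.mem_univ i)) h1
  rw [hn i] at h2
  exact h2

lemma E_solvable (n : ℕ) : Group.IsSolvable (E n) := by
  have : Group.IsSolvable (∀ m : Fin (n + 1), A m) := pi_solvable _ (fun m => solvA _)
  exact Group.isSolvable_of_isSolvable_injective (resE_inj n)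

theorem G_locSolvable (K : Subgroup G) (hK : K.FG) : Group.IsSolvable K := by
  obtain ⟨S, hS⟩ := hK
  have h1 : ((Subtype.val : G → W) '' (S : Set G)).Finite := S.finite_toSet.image _
  obtain ⟨n, hn⟩ := exists_E_of_finite h1 (by rintro _ ⟨x, _, rfl⟩; exact x.2)
  have h2 : K ≤ (E n).subgroupOf G := by
    rw [← hS, Subgroup.closure_le]
    intro x hx
    exact hn ⟨x, hx, rfl⟩
  let f : K →* E n :=
    { toFun := fun x => ⟨x.1.1, h2 x.2⟩
      map_one' := rfl
      map_mul' := fun _ _ => rfl }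
  have hf : Injective f := by
    intro x y hxy
    apply Subtype.ext
    apply Subtype.ext
    exact congrArg (fun z : E n => z.1) hxy
  have := E_solvable n
  exact Group.isSolvable_of_isSolvable_injective hf

/-! ### failure of the Chernikov condition -/

theorem not_chernikov : ∃ q : ℕ, q.Prime ∧ ∃ Q : Sylow q G, ∀ N : Subgroup G,
    N.relIndex Q.toSubgroup ≠ 0 → ¬ {x : G | x ∈ N ∧ (orderOf x).Prime}.Finite := by
  choose x hx hx2 using baseA
  let T : Subgroup G :=
    { carrier := {g | ∀ m, g.1 m ∈ Subgroup.zpowers (x m)}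
      one_mem' := fun m => Subgroup.one_mem _
      mul_mem' := fun {a b} ha hb m => Subgroup.mul_mem _ (ha m) (hb m)
      inv_mem' := fun {a} ha m => Subgroup.inv_mem _ (ha m) }
  have hTpow : ∀ g ∈ T, g ^ p 0 = 1 := by
    intro g hg
    apply Subtype.ext
    funext m
    change (g.1 m) ^ p 0 = 1
    obtain ⟨k, hk⟩ := hg m
    have hk' : x m ^ k = g.1 m := hk
    rw [← hk', ← zpow_natCast, ← zpow_mul, mul_comm, zpow_mul, zpow_natCast, ← hx2 m,
      pow_orderOf_eq_one, one_zpow]
  have hTp : IsPGroup (p 0) T := by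
    rintro ⟨g, hg⟩
    refine ⟨1, ?_⟩
    rw [pow_one]
    exact Subtype.ext (hTpow g hg)
  obtain ⟨Q, hQ⟩ := hTp.exists_le_sylow
  refine ⟨p 0, p_prime 0, Q, ?_⟩
  intro N hN hfin
  have h1 : N.relIndex T ≠ 0 := by
    intro h
    exact hN (Subgroup.relIndex_eq_zero_of_le_right hQ h)
  have hTinf : Infinite T := by
    let t : ℕ → T := fun m => ⟨⟨Pi.mulSingle m (x m), E_le_G (m + 1) (mulSingle_mem_E (by omega) (hx m))⟩, by
      intro m'
      change (Pi.mulSingle m (x m) : W) m' ∈ _
      by_cases hm : m' = m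
      · subst hm; rw [Pi.mulSingle_eq_same]; exact Subgroup.mem_zpowers _
      · rw [Pi.mulSingle_eq_of_ne hm]; exact Subgroup.one_mem _⟩
    apply Infinite.of_injective t
    intro m m' h
    by_contra hne
    have h2 : (Pi.mulSingle m (x m) : W) m = (Pi.mulSingle m' (x m') : W) m :=
      congrArg (fun z : T => z.1.1 m) h
    rw [Pi.mulSingle_eq_same, Pi.mulSingle_eq_of_ne hne] at h2
    have h3 := hx2 m
    rw [h2, orderOf_one] at h3
    have := (p_prime 0).one_lt
    omega
  have hNT : Finite (N.subgroupOf T) := by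
    have h2 : ({x : G | x ∈ N ∧ (orderOf x).Prime} ∪ {1}).Finite := hfin.union (Set.finite_singleton 1)
    have := h2.to_subtype
    apply Finite.of_injective (β := ↥({x : G | x ∈ N ∧ (orderOf x).Prime} ∪ {1}))
      (fun z : N.subgroupOf T => ⟨z.1.1, by
        by_cases hz : z.1.1 = 1
        · right; exact hz
        · left
          refine ⟨z.2, ?_⟩
          have h3 : orderOf z.1.1 ∣ p 0 := orderOf_dvd_of_pow_eq_one (hTpow _ z.1.2)
          rcases (Nat.dvd_prime (p_prime 0)).1 h3 with h4 | h4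
          · exact absurd (orderOf_eq_one_iff.1 h4) hz
          · rw [h4]; exact p_prime 0⟩)
    intro z z' hzz
    apply Subtype.ext
    apply Subtype.ext
    exact congrArg (fun y => (y.1 : G)) hzz
  have hidx : (N.subgroupOf T).index ≠ 0 := h1
  have hfi : (N.subgroupOf T).FiniteIndex := ⟨hidx⟩
  have h5 : Finite (T ⧸ N.subgroupOf T) := Subgroup.finite_quotient_of_finiteIndex
  have h6 : Finite T := Finite.of_equiv _ (Subgroup.groupEquivQuotientProdSubgroup (s := N.subgroupOf T)).symm
  exact not_finite T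

end Pool.Agent.Lib.MP_a1de5b_al
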