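import Pool.Agent.Lib.MP_a1de5b_al.Coord

/-!
# The group `G`
-/

namespace Pool.Agent.Lib.MP_a1de5b_al

open Function

/-- the ambient product -/
abbrev W : Type := ∀ m, A m

/-- the global character -/
noncomputable def χP : W →* P where
  toFun a i := χ (i + 1) (a (i + 1)) i
  map_one' := by funext i; simp
  map_mul' a b := by funext i; simp

lemma χP_apply (a : W) (i : ℕ) : χP a i = χ (i + 1) (a (i + 1)) i := rfl

/-- finite support -/
def FS (b : P) : Prop := ∃ n, trunc n b = b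

lemma trunc_mono {m n : ℕ} (h : m ≤ n) {b : P} (hb : trunc m b = b) : trunc n b = b := by
  rw [← hb, trunc_of_le h]

lemma FS_one : FS 1 := ⟨0, map_one _⟩

lemma FS.mul {a b : P} (ha : FS a) (hb : FS b) : FS (a * b) := by
  obtain ⟨m, hm⟩ := ha
  obtain ⟨n, hn⟩ := hb
  refine ⟨max m n, ?_⟩
  rw [map_mul, trunc_mono (le_max_left _ _) hm, trunc_mono (le_max_right _ _) hn]

lemma FS.inv {a : P} (ha : FS a) : FS a⁻¹ := by
  obtain ⟨m, hm⟩ := ha
  exact ⟨m, by rw [map_inv, hm]⟩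

/-- compatible elements -/
def Cp (a : W) : Prop := ∀ m, χ m (a m) = trunc m (χP a)

lemma Cp.one : Cp 1 := by
  intro m; simp

lemma Cp.mul {a b : W} (ha : Cp a) (hb : Cp b) : Cp (a * b) := by
  intro m; rw [Pi.mul_apply, map_mul, map_mul, map_mul, ha, hb]

lemma Cp.inv {a : W} (ha : Cp a) : Cp a⁻¹ := by
  intro m; rw [Pi.inv_apply, map_inv, map_inv, map_inv, ha]

lemma Cp.apply {a : W} (ha : Cp a) {i m : ℕ} (h : i < m) : χ m (a m) i = χP a i := by
  rw [ha m, trunc_apply, if_pos h]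

lemma χP_eq_of {a : W} {b : P} (h : ∀ m, χ m (a m) = trunc m b) : χP a = b := by
  funext i
  rw [χP_apply, h, trunc_apply, if_pos (by omega)]

/-- The group `G`. -/
noncomputable def G : Subgroup W where
  carrier := {a | FS (χP a) ∧ Cp a ∧ ∃ M, ∀ m ≥ M, a m = σ m (χP a)}
  one_mem' := by
    refine ⟨?_, Cp.one, 0, ?_⟩
    · rw [map_one]; exact FS_one
    · intro m _; rw [map_one, map_one]; rfl
  mul_mem' := by
    rintro a b ⟨ha1, ha2, M, hM⟩ ⟨hb1, hb2, M', hM'⟩
    refine ⟨?_, ha2.mul hb2, max M M', ?_⟩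
    · rw [map_mul]; exact ha1.mul hb1
    · intro m hm
      rw [map_mul, map_mul, Pi.mul_apply, hM m (le_trans (le_max_left _ _) hm),
        hM' m (le_trans (le_max_right _ _) hm)]
  inv_mem' := by
    rintro a ⟨ha1, ha2, M, hM⟩
    refine ⟨?_, ha2.inv, M, ?_⟩
    · rw [map_inv]; exact ha1.inv
    · intro m hm
      rw [map_inv, map_inv, Pi.inv_apply, hM m hm]

lemma mem_G {a : W} : a ∈ G ↔ FS (χP a) ∧ Cp a ∧ ∃ M, ∀ m ≥ M, a m = σ m (χP a) := Iff.rfl

/-- The finite subgroups `E n`. -/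
noncomputable def E (n : ℕ) : Subgroup W where
  carrier := {a | trunc n (χP a) = χP a ∧ Cp a ∧ ∀ m ≥ n, a m = σ m (χP a)}
  one_mem' := by
    refine ⟨?_, Cp.one, ?_⟩
    · rw [map_one, map_one]
    · intro m _; rw [map_one, map_one]; rfl
  mul_mem' := by
    rintro a b ⟨ha1, ha2, ha3⟩ ⟨hb1, hb2, hb3⟩
    refine ⟨?_, ha2.mul hb2, ?_⟩
    · rw [map_mul, map_mul, ha1, hb1]
    · intro m hm
      rw [map_mul, map_mul, Pi.mul_apply, ha3 m hm, hb3 m hm]
  inv_mem' := by
    rintro a ⟨ha1, ha2, ha3⟩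
    refine ⟨?_, ha2.inv, ?_⟩
    · rw [map_inv, map_inv, ha1]
    · intro m hm
      rw [map_inv, map_inv, Pi.inv_apply, ha3 m hm]

lemma mem_E {n : ℕ} {a : W} :
    a ∈ E n ↔ trunc n (χP a) = χP a ∧ Cp a ∧ ∀ m ≥ n, a m = σ m (χP a) := Iff.rfl

lemma E_le_G (n : ℕ) : E n ≤ G := by
  rintro a ⟨h1, h2, h3⟩
  exact ⟨⟨n, h1⟩, h2, n, h3⟩

lemma E_mono {m n : ℕ} (h : m ≤ n) : E m ≤ E n := by
  rintro a ⟨h1, h2, h3⟩
  exact ⟨trunc_mono h h1, h2, fun k hk => h3 k (h.trans hk)⟩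

lemma exists_mem_E {a : W} (h : a ∈ G) : ∃ n, a ∈ E n := by
  obtain ⟨⟨n, hn⟩, h2, M, hM⟩ := h
  exact ⟨max n M, trunc_mono (le_max_left _ _) hn, h2,
    fun k hk => hM k (le_trans (le_max_right _ _) hk)⟩

/-- restriction to the first coordinates -/
noncomputable def resE (n : ℕ) : E n →* (∀ m : Fin (n + 1), A m) where
  toFun a m := a.1 m
  map_one' := rfl
  map_mul' _ _ := rfl

lemma resE_inj (n : ℕ) : Injective (resE n) := by
  rw [injective_iff_map_eq_one]
  rintro ⟨a, h1, h2, h3⟩ h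
  have h4 : ∀ m ≤ n, a m = 1 := by
    intro m hm
    exact congrFun h ⟨m, by omega⟩
  have h5 : χP a = 1 := by
    funext i
    by_cases hi : i < n
    · rw [χP_apply, h4 _ (by omega), map_one]
    · rw [← h1, trunc_apply, if_neg hi]; rfl
  apply Subtype.ext
  funext m
  by_cases hm : m ≤ n
  · exact h4 m hm
  · change a m = 1
    rw [h3 m (by omega), h5, map_one]

instance (n : ℕ) : Finite (E n) := Finite.of_injective _ (resE_inj n)

/-- a finite set of elements of `G` lies in some `E n` -/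
lemma exists_E_of_finite {S : Set W} (hS : S.Finite) (h : S ⊆ G) : ∃ n, S ⊆ E n := by
  induction S, hS using Set.Finite.induction_on with
  | empty => exact ⟨0, by simp⟩
  | @insert a S _ _ ih =>
    obtain ⟨n, hn⟩ := ih (fun x hx => h (Set.mem_insert_of_mem _ hx))
    obtain ⟨k, hk⟩ := exists_mem_E (h (Set.mem_insert a S))
    refine ⟨max n k, ?_⟩
    intro x hx
    rcases hx with rfl | hx
    · exact E_mono (le_max_right _ _) hk
    · exact E_mono (le_max_left _ _) (hn hx)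

/-! ### orders -/

lemma exists_p_or_ℓ {q : ℕ} (hq : q.Prime) : (∃ j, q = p j) ∨ (∃ j, q = ℓ j) := by
  have h1 : pr (Nat.count Nat.Prime q) = q := Nat.nth_count hq
  rcases Nat.even_or_odd' (Nat.count Nat.Prime q) with ⟨k, hk | hk⟩
  · left; exact ⟨k, by rw [← h1, hk]; rfl⟩
  · right; exact ⟨k, by rw [← h1, hk]; rfl⟩

lemma ℓ_not_dvd {i m : ℕ} (h : i ≠ m) : ¬ ℓ i ∣ Nat.card (A m) := by
  intro h1
  rcases primesA (ℓ_prime i) h1 with h2 | ⟨j, _, h2⟩
  · exact h (ℓ_inj h2)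
  · exact p_ne_ℓ _ _ h2.symm

lemma p_not_dvd {j m : ℕ} (h : m < j) : ¬ p j ∣ Nat.card (A m) := by
  intro h1
  rcases primesA (p_prime j) h1 with h2 | ⟨i, hi, h2⟩
  · exact p_ne_ℓ _ _ h2
  · have := p_inj h2
    omega

lemma eq_one_of_ℓ {i m k : ℕ} (h : i ≠ m) {x : A m} (hx : x ^ ℓ i ^ k = 1) : x = 1 :=
  eq_one_of_coprime' (ℓ_prime i) (ℓ_not_dvd h) hx

/-- two coprime powers -/
lemma eq_one_of_coprime_pow {X : Type*} [Group X] {x : X} {a b : ℕ} (h : Nat.Coprime a b)
    (ha : x ^ a = 1) (hb : x ^ b = 1) : x = 1 := by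
  have h1 := orderOf_dvd_of_pow_eq_one ha
  have h2 := orderOf_dvd_of_pow_eq_one hb
  have h3 := Nat.dvd_gcd h1 h2
  rw [h, Nat.dvd_one] at h3
  exact orderOf_eq_one_iff.1 h3

/-- primary decomposition argument -/
lemma eq_one_of_primary {X Y : Type*} [Group X] [Group Y] (f : X →* Y) (x : X)
    (hx : IsOfFinOrder x)
    (h : ∀ q, q.Prime → q ∣ orderOf x → f (x ^ (orderOf x / q ^ (orderOf x).factorization q)) = 1) :
    f x = 1 := by
  by_contra hne
  have h1 : orderOf (f x) ≠ 1 := fun h => hne (orderOf_eq_one_iff.1 h)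
  obtain ⟨q, hq, hq2⟩ := Nat.exists_prime_and_dvd h1
  have h2 : orderOf (f x) ∣ orderOf x := orderOf_map_dvd f x
  have h3 := h q hq (hq2.trans h2)
  rw [map_pow] at h3
  have h4 := orderOf_dvd_of_pow_eq_one h3
  exact Nat.not_dvd_ordCompl hq (hx.orderOf_pos.ne') (hq2.trans h4)

lemma primary_pow {X : Type*} [Group X] (x : X) (q : ℕ) :
    (x ^ (orderOf x / q ^ (orderOf x).factorization q)) ^ q ^ (orderOf x).factorization q = 1 := by
  rw [← pow_mul, Nat.div_mul_cancel (Nat.ordProj_dvd _ _), pow_orderOf_eq_one]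

lemma primary_ne {X : Type*} [Group X] {x : X} {q : ℕ} (hq : q.Prime) (hx : IsOfFinOrder x)
    (h : q ∣ orderOf x) : x ^ (orderOf x / q ^ (orderOf x).factorization q) ≠ 1 := by
  intro h1
  have h2 := orderOf_dvd_of_pow_eq_one h1
  exact Nat.not_dvd_ordCompl hq (hx.orderOf_pos.ne') (h.trans h2)

/-! ### special elements -/

lemma χ_mulSingle {m : ℕ} {a : A m} (h : χ m a = 1) (m' : ℕ) :
    χ m' ((Pi.mulSingle m a : W) m') = 1 := by
  by_cases hm : m' = m
  · subst hm; rw [Pi.mulSingle_eq_same, h]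
  · rw [Pi.mulSingle_eq_of_ne hm, map_one]

lemma χP_mulSingle {m : ℕ} {a : A m} (h : χ m a = 1) : χP (Pi.mulSingle m a) = 1 :=
  χP_eq_of (fun m' => by rw [χ_mulSingle h, map_one])

lemma mulSingle_mem_E {m n : ℕ} (hmn : m < n) {a : A m} (h : χ m a = 1) :
    (Pi.mulSingle m a : W) ∈ E n := by
  refine ⟨?_, ?_, ?_⟩
  · rw [χP_mulSingle h, map_one]
  · intro m'
    rw [χ_mulSingle h, χP_mulSingle h, map_one]
  · intro m' hm'
    rw [χP_mulSingle h, map_one, Pi.mulSingle_eq_of_ne (by omega)]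

lemma χ_of_L {m : ℕ} {a : A m} (h : a ∈ L m) : χ m a = 1 := by
  have h1 : χ m a ^ ℓ m = 1 := by rw [← map_pow, L_pow h, map_one]
  funext i
  apply P_eq_one_of_pow h1
  intro h2
  exact p_ne_ℓ _ _ ((Nat.prime_dvd_prime_iff_eq (p_prime _) (ℓ_prime m)).1 h2)

/-- the embedding `ι` of the `m`-th coordinate -/
noncomputable def ι (m : ℕ) : A m →* W where
  toFun a := Function.update (fun m' => σ m' (χ m a)) m a
  map_one' := by
    funext m'
    by_cases h : m' = m
    · subst h; simp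
    · rw [Function.update_of_ne h]; simp
  map_mul' a b := by
    funext m'
    by_cases h : m' = m
    · subst h; simp
    · rw [Function.update_of_ne h, Pi.mul_apply, Function.update_of_ne h,
        Function.update_of_ne h]; simp

lemma ι_same (m : ℕ) (a : A m) : ι m a m = a := by
  change Function.update (fun m' => σ m' (χ m a)) m a m = a
  rw [Function.update_self]
lemma ι_ne {m m' : ℕ} (h : m' ≠ m) (a : A m) : ι m a m' = σ m' (χ m a) := by
  change Function.update (fun m' => σ m' (χ m a)) m a m' = _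
  rw [Function.update_of_ne h]

lemma ι_inj (m : ℕ) : Injective (ι m) := by
  intro a b h
  rw [← ι_same m a, ← ι_same m b, h]

lemma χ_ι (m : ℕ) (a : A m) (m' : ℕ) : χ m' (ι m a m') = trunc m' (χ m a) := by
  by_cases h : m' = m
  · subst h; rw [ι_same, tχ]
  · rw [ι_ne h, χσ]

lemma χP_ι (m : ℕ) (a : A m) : χP (ι m a) = χ m a := χP_eq_of (χ_ι m a)

lemma ι_mem_E {m n : ℕ} (h : m < n) (a : A m) : ι m a ∈ E n := by
  refine ⟨?_, ?_, ?_⟩
  · rw [χP_ι]; exact trunc_mono h.le (tχ m a)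
  · intro m'; rw [χ_ι, χP_ι]
  · intro m' hm'
    rw [χP_ι, ι_ne (by omega)]

/-- **Rigidity**: an embedding of `A m` into `G` is injective on the `m`-th coordinate. -/
lemma coord_inj {m : ℕ} (ψ : A m →* W) (hψ : Injective ψ) :
    Injective (fun a => ψ a m) := by
  let f : A m →* A m := (Pi.evalMonoidHom _ m).comp ψ
  change Injective f
  have hL : ∀ a ∈ L m, f a = 1 → a = 1 := by
    intro a ha h1
    apply hψ
    rw [map_one]
    funext m'
    by_cases h : m' = m
    · subst h; exact h1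
    · apply eq_one_of_ℓ (i := m) (k := 1) (Ne.symm h)
      rw [pow_one, ← Pi.pow_apply, ← map_pow, L_pow ha, map_one]; rfl
  rw [injective_iff_map_eq_one]
  intro x hx
  apply hL x _ hx
  apply L_cent
  intro y hy
  have h1 : x * y * x⁻¹ * y⁻¹ ∈ L m := by
    apply Subgroup.mul_mem _ _ (Subgroup.inv_mem _ hy)
    apply mem_L
    rw [conj_pow, L_pow hy]; group
  have h2 : f (x * y * x⁻¹ * y⁻¹) = 1 := by
    simp only [map_mul, map_inv, hx]
    group
  have h3 := hL _ h1 h2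
  have : x * y = (x * y * x⁻¹ * y⁻¹) * (y * x) := by group
  rw [this, h3, one_mul]

lemma coord_bij {m : ℕ} (ψ : A m →* W) (hψ : Injective ψ) :
    Surjective (fun a => ψ a m) :=
  (Finite.injective_iff_surjective).1 (coord_inj ψ hψ)

end Pool.Agent.Lib.MP_a1de5b_al
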