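import Mathlib

/-!
# The layer group `Z(Ω, q, N)`

A finite `q`-group with elements `e c` (`c : Ω`) of order `q` and a homomorphism `ζ` to `F_q^Ω`
sending `e c` to the `c`-th basis vector, such that every element `z` for which `ζ z` has at least
two nonzero coordinates has order divisible by `q ^ N`.
-/

namespace Pool.Agent.Lib.MP_a1de5b_al

open Function

/-- The ambient group of the layer. -/
@[ext]
structure Amb (Ω : Type) (q N : ℕ) where
  /-- coordinates -/
  ζ : Ω → ZMod q
  /-- twisted coordinates -/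
  w : Ω → Ω → ZMod q → ZMod q → ZMod (q ^ N)

namespace Amb

variable {Ω : Type} {q N : ℕ}

/-- the twist -/
def sh (ζ : Ω → ZMod q) (a b : Ω) (k : ZMod q) : ZMod q := ζ b - k * ζ a

instance : Mul (Amb Ω q N) where
  mul x y := ⟨x.ζ + y.ζ, fun a b k t => x.w a b k t + y.w a b k (t - sh x.ζ a b k)⟩

instance : One (Amb Ω q N) where
  one := ⟨0, fun _ _ _ _ => 0⟩

instance : Inv (Amb Ω q N) where
  inv x := ⟨-x.ζ, fun a b k t => - x.w a b k (t + sh x.ζ a b k)⟩

lemma mul_ζ (x y : Amb Ω q N) : (x * y).ζ = x.ζ + y.ζ := rfl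
lemma mul_w (x y : Amb Ω q N) (a b : Ω) (k t : ZMod q) :
    (x * y).w a b k t = x.w a b k t + y.w a b k (t - sh x.ζ a b k) := rfl
lemma one_ζ : (1 : Amb Ω q N).ζ = 0 := rfl
lemma one_w (a b : Ω) (k t : ZMod q) : (1 : Amb Ω q N).w a b k t = 0 := rfl
lemma inv_ζ (x : Amb Ω q N) : (x⁻¹).ζ = -x.ζ := rfl
lemma inv_w (x : Amb Ω q N) (a b : Ω) (k t : ZMod q) :
    (x⁻¹).w a b k t = - x.w a b k (t + sh x.ζ a b k) := rfl

lemma sh_add (ζ ζ' : Ω → ZMod q) (a b : Ω) (k : ZMod q) :
    sh (ζ + ζ') a b k = sh ζ a b k + sh ζ' a b k := by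
  simp only [sh, Pi.add_apply]; ring

lemma sh_neg (ζ : Ω → ZMod q) (a b : Ω) (k : ZMod q) :
    sh (-ζ) a b k = - sh ζ a b k := by
  simp only [sh, Pi.neg_apply]; ring

lemma sh_zero (a b : Ω) (k : ZMod q) : sh (0 : Ω → ZMod q) a b k = 0 := by
  simp [sh]

instance : Group (Amb Ω q N) := Group.ofLeftAxioms
  (by
    intro x y z
    ext1
    · simp only [mul_ζ]; rw [add_assoc]
    · funext a b k t
      simp only [mul_w, mul_ζ, sh_add]
      rw [add_assoc, sub_sub])
  (by
    intro x
    ext1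
    · simp only [mul_ζ, one_ζ, zero_add]
    · funext a b k t
      simp only [mul_w, one_w, one_ζ, sh_zero, sub_zero, zero_add])
  (by
    intro x
    ext1
    · simp only [mul_ζ, one_ζ, inv_ζ, neg_add_cancel]
    · funext a b k t
      simp only [mul_w, one_w, inv_w, inv_ζ, sh_neg, sub_neg_eq_add, neg_add_cancel])

lemma pow_ζ (x : Amb Ω q N) (n : ℕ) : (x ^ n).ζ = n • x.ζ := by
  induction n with
  | zero => simp [one_ζ]
  | succ n ih => rw [pow_succ, mul_ζ, ih, succ_nsmul]

lemma pow_w (x : Amb Ω q N) (n : ℕ) (a b : Ω) (k t : ZMod q) :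
    (x ^ n).w a b k t = ∑ i ∈ Finset.range n, x.w a b k (t - i * sh x.ζ a b k) := by
  induction n with
  | zero => simp [one_w]
  | succ n ih =>
    rw [pow_succ, mul_w, ih, Finset.sum_range_succ, pow_ζ]
    congr 2
    simp only [sh, Pi.smul_apply, nsmul_eq_mul]
    ring

/-- the `ζ`-coordinate as a homomorphism -/
def ζHom (Ω : Type) (q N : ℕ) : Amb Ω q N →* Multiplicative (Ω → ZMod q) where
  toFun x := Multiplicative.ofAdd x.ζ
  map_one' := rfl
  map_mul' _ _ := rfl

instance [Finite Ω] [NeZero q] : Finite (Amb Ω q N) := by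
  have : NeZero (q ^ N) := ⟨pow_ne_zero _ (NeZero.ne q)⟩
  have h : Injective (fun x : Amb Ω q N => (x.ζ, x.w)) := by
    intro x y h
    have h1 := congrArg Prod.fst h
    have h2 := congrArg Prod.snd h
    ext1
    · exact h1
    · exact h2
  exact Finite.of_injective _ h

/-! ### the action -/

variable {Q : Type} [Group Q] [MulAction Q Ω]

instance : SMul Q (Amb Ω q N) where
  smul g x := ⟨fun c => x.ζ (g⁻¹ • c), fun a b k t => x.w (g⁻¹ • a) (g⁻¹ • b) k t⟩

lemma smul_ζ (g : Q) (x : Amb Ω q N) (c : Ω) : (g • x).ζ c = x.ζ (g⁻¹ • c) := rfl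
lemma smul_w (g : Q) (x : Amb Ω q N) (a b : Ω) (k t : ZMod q) :
    (g • x).w a b k t = x.w (g⁻¹ • a) (g⁻¹ • b) k t := rfl

instance : MulDistribMulAction Q (Amb Ω q N) where
  one_smul x := by
    ext1
    · funext c; rw [smul_ζ]; simp
    · funext a b k t; rw [smul_w]; simp
  mul_smul g h x := by
    ext1
    · funext c; simp only [smul_ζ, mul_inv_rev, mul_smul]
    · funext a b k t; simp only [smul_w, mul_inv_rev, mul_smul]
  smul_mul g x y := by
    ext1
    · funext c; simp only [smul_ζ, mul_ζ, Pi.add_apply]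
    · funext a b k t; simp only [smul_w, mul_w]; rfl
  smul_one g := by
    ext1
    · funext c; rfl
    · funext a b k t; rfl

/-! ### the good subgroup -/

section good

variable [Fact q.Prime]

/-- reduction modulo `q` -/
def red (N : ℕ) [NeZero N] : ZMod (q ^ N) →+* ZMod q :=
  ZMod.castHom (dvd_pow_self q (NeZero.ne N)) (ZMod q)

variable [NeZero N]

open Classical in
/-- the required first moment -/
noncomputable def mom (ζ : Ω → ZMod q) (a b : Ω) (k : ZMod q) : ZMod q :=
  if a ≠ b ∧ k ≠ 0 then ζ a else 0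

lemma mom_add (ζ ζ' : Ω → ZMod q) (a b : Ω) (k : ZMod q) :
    mom (ζ + ζ') a b k = mom ζ a b k + mom ζ' a b k := by
  unfold mom; split_ifs <;> simp

lemma mom_neg (ζ : Ω → ZMod q) (a b : Ω) (k : ZMod q) :
    mom (-ζ) a b k = - mom ζ a b k := by
  unfold mom; split_ifs <;> simp

/-- the condition defining the layer group -/
def Good (x : Amb Ω q N) : Prop :=
  ∀ a b k, (∑ t, x.w a b k t = 0) ∧ (∑ t, t * red N (x.w a b k t) = mom x.ζ a b k)

lemma sum_shift {M : Type*} [AddCommMonoid M] (f : ZMod q → M) (s : ZMod q) :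
    ∑ t, f (t - s) = ∑ t, f t :=
  Fintype.sum_equiv (Equiv.subRight s) _ _ (fun _ => rfl)

lemma sum_mul_shift (f : ZMod q → ZMod (q ^ N)) (s : ZMod q) (h : ∑ t, f t = 0) :
    ∑ t, t * red N (f (t - s)) = ∑ t, t * red N (f t) := by
  have h1 : ∑ t, t * red N (f (t - s)) = ∑ t, ((t - s) * red N (f (t - s)) + s * red N (f (t - s))) := by
    apply Finset.sum_congr rfl
    intro t _; ring
  rw [h1, Finset.sum_add_distrib, ← Finset.mul_sum,
    sum_shift (fun t => t * red N (f t)) s, sum_shift (fun t => red N (f t)) s, ← map_sum, h]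
  simp

lemma good_mul {x y : Amb Ω q N} (hx : Good x) (hy : Good y) : Good (x * y) := by
  intro a b k
  obtain ⟨h1, h2⟩ := hx a b k
  obtain ⟨h3, h4⟩ := hy a b k
  constructor
  · simp only [mul_w]
    rw [Finset.sum_add_distrib, h1, sum_shift (fun t => y.w a b k t), h3, add_zero]
  · simp only [mul_w, map_add, mul_add]
    rw [Finset.sum_add_distrib, h2, sum_mul_shift (fun t => y.w a b k t) _ h3, h4, mul_ζ, mom_add]

lemma good_one : Good (1 : Amb Ω q N) := by
  intro a b k
  constructor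
  · simp [one_w]
  · simp [one_w, one_ζ, mom]

lemma good_inv {x : Amb Ω q N} (hx : Good x) : Good x⁻¹ := by
  intro a b k
  obtain ⟨h1, h2⟩ := hx a b k
  have e : ∀ t, t + sh x.ζ a b k = t - (- sh x.ζ a b k) := fun t => by ring
  constructor
  · simp only [inv_w, e]
    rw [Finset.sum_neg_distrib, sum_shift (fun t => x.w a b k t), h1, neg_zero]
  · simp only [inv_w, e, map_neg, mul_neg]
    rw [Finset.sum_neg_distrib, sum_mul_shift (fun t => x.w a b k t) _ h1, h2, inv_ζ, mom_neg]

lemma good_smul (g : Q) {x : Amb Ω q N} (hx : Good x) : Good (g • x) := by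
  intro a b k
  obtain ⟨h1, h2⟩ := hx (g⁻¹ • a) (g⁻¹ • b) k
  constructor
  · simp only [smul_w]; exact h1
  · simp only [smul_w]; rw [h2]
    unfold mom
    by_cases hab : a = b
    · subst hab; simp
    · have : g⁻¹ • a ≠ g⁻¹ • b := fun h => hab (MulAction.injective g⁻¹ h)
      simp [hab, smul_ζ]

/-- The layer group as a subgroup of the ambient group. -/
def goodSubgroup (Ω : Type) (q N : ℕ) [Fact q.Prime] [NeZero N] : Subgroup (Amb Ω q N) where
  carrier := {x | Good x}
  mul_mem' := good_mul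
  one_mem' := good_one
  inv_mem' := good_inv

end good

end Amb

section Layer

variable (Ω : Type) (q N : ℕ) [Fact q.Prime] [NeZero N]

/-- The layer group `Z(Ω, q, N)`. -/
abbrev Layer : Type := ↥(Amb.goodSubgroup Ω q N)

variable {Ω q N}

instance [Finite Ω] : Finite (Layer Ω q N) := by
  have : NeZero q := ⟨(Fact.out : q.Prime).ne_zero⟩
  infer_instance

variable {Q : Type} [Group Q] [MulAction Q Ω]

instance : MulDistribMulAction Q (Layer Ω q N) where
  smul g x := ⟨g • x.1, Amb.good_smul g x.2⟩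
  one_smul x := Subtype.ext (one_smul Q x.1)
  mul_smul g h x := Subtype.ext (mul_smul g h x.1)
  smul_mul g x y := Subtype.ext (smul_mul' g x.1 y.1)
  smul_one g := Subtype.ext (smul_one g)

lemma Layer.coe_smul (g : Q) (x : Layer Ω q N) : ((g • x : Layer Ω q N) : Amb Ω q N) = g • x.1 := rfl

/-- powers in the layer group: exponent divides `q ^ (N+1)` -/
lemma Amb.pow_eq_one (x : Amb Ω q N) : x ^ (q ^ (N + 1)) = 1 := by
  have h0 : (x ^ q).ζ = 0 := by
    rw [Amb.pow_ζ]
    funext c
    simp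
  rw [pow_succ', pow_mul]
  ext1
  · rw [Amb.pow_ζ, h0]; simp [Amb.one_ζ]
  · funext a b k t
    rw [Amb.pow_w, h0]
    simp only [Amb.sh_zero, mul_zero, sub_zero, Finset.sum_const, Finset.card_range, Amb.one_w]
    rw [nsmul_eq_mul]
    simp

lemma Layer.isPGroup : IsPGroup q (Layer Ω q N) := by
  intro x
  exact ⟨N + 1, Subtype.ext (Amb.pow_eq_one x.1)⟩

open Classical in
/-- the basis element `w₀ = δ₁ - δ₀` -/
noncomputable def w₀ (q N : ℕ) : ZMod q → ZMod (q ^ N) := Pi.single 1 1 - Pi.single 0 1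

lemma w₀_sum : ∑ t, w₀ q N t = 0 := by
  simp [w₀, Finset.sum_sub_distrib]

lemma w₀_mom : ∑ t, t * Amb.red N (w₀ q N t) = 1 := by
  have : ∀ t : ZMod q, t * Amb.red N (w₀ q N t) = Pi.single (M := fun _ => ZMod q) 1 1 t := by
    intro t
    unfold w₀
    by_cases h1 : t = 1
    · subst h1
      simp
    · by_cases h0 : t = 0
      · subst h0; simp
      · simp [Pi.single_apply, h1, h0]
  rw [Finset.sum_congr rfl (fun t _ => this t)]
  simp

open Classical in
/-- the ambient version of the generator `e c` -/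
noncomputable def eAmb (N : ℕ) (c : Ω) : Amb Ω q N where
  ζ := Pi.single c 1
  w a b k := if a = c ∧ a ≠ b ∧ k ≠ 0 then w₀ q N else 0

lemma eAmb_good (c : Ω) : Amb.Good (eAmb (q := q) N c) := by
  classical
  intro a b k
  unfold eAmb
  by_cases h : a = c ∧ a ≠ b ∧ k ≠ 0
  · simp only [if_pos h]
    refine ⟨w₀_sum, ?_⟩
    rw [w₀_mom]
    obtain ⟨rfl, h2, h3⟩ := h
    simp [Amb.mom, h2, h3]
  · simp only [if_neg h]
    refine ⟨by simp, ?_⟩
    simp only [Pi.zero_apply, map_zero, mul_zero, Finset.sum_const_zero]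
    unfold Amb.mom
    by_cases h2 : a ≠ b ∧ k ≠ 0
    · rw [if_pos h2]
      have : a ≠ c := fun h3 => h ⟨h3, h2⟩
      simp [Pi.single_apply, this]
    · rw [if_neg h2]

/-- the generator `e c` of the layer group -/
noncomputable def Layer.e (c : Ω) : Layer Ω q N := ⟨eAmb N c, eAmb_good c⟩

lemma Layer.e_ζ (c : Ω) [DecidableEq Ω] : (Layer.e (q := q) (N := N) c).1.ζ = Pi.single c 1 := by
  change (eAmb N c).ζ = _
  unfold eAmb
  funext x
  by_cases h : x = c
  · subst h; simp
  · simp [Pi.single_apply, h]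

lemma Layer.smul_e (g : Q) (c : Ω) : g • (Layer.e (q := q) (N := N) c) = Layer.e (g • c) := by
  classical
  apply Subtype.ext
  rw [Layer.coe_smul]
  change g • eAmb N c = eAmb N (g • c)
  have key : ∀ a : Ω, g⁻¹ • a = c ↔ a = g • c := by
    intro a; rw [inv_smul_eq_iff]
  ext1
  · funext x
    rw [Amb.smul_ζ]
    simp only [eAmb, Pi.single_apply, key]
  · funext a b k t
    rw [Amb.smul_w]
    simp only [eAmb, key]
    have : (g⁻¹ • a ≠ g⁻¹ • b) ↔ a ≠ b := by
      rw [not_iff_not]
      exact (MulAction.injective g⁻¹).eq_iff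
    simp only [this]

lemma Layer.e_pow (c : Ω) : (Layer.e (q := q) (N := N) c) ^ q = 1 := by
  classical
  apply Subtype.ext
  change (eAmb N c) ^ q = 1
  ext1
  · rw [Amb.pow_ζ]; funext x; simp [Amb.one_ζ]
  · funext a b k t
    rw [Amb.pow_w, Amb.one_w]
    by_cases h : a = c ∧ a ≠ b ∧ k ≠ 0
    · have hs : Amb.sh (eAmb (q := q) N c).ζ a b k ≠ 0 := by
        obtain ⟨rfl, h2, h3⟩ := h
        simp [Amb.sh, eAmb, Pi.single_apply, h2.symm, h3]
      have hw : (eAmb (q := q) N c).w a b k = w₀ q N := by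
        simp only [eAmb, if_pos h]
      rw [hw]
      -- the sum runs over all residues
      have hq : NeZero q := ⟨(Fact.out : q.Prime).ne_zero⟩
      have h1 : ∑ i ∈ Finset.range q, w₀ q N (t - i * Amb.sh (eAmb (q := q) N c).ζ a b k)
          = ∑ i : ZMod q, w₀ q N (t - i * Amb.sh (eAmb (q := q) N c).ζ a b k) := by
        symm
        apply Finset.sum_bij (fun (i : ZMod q) _ => i.val)
        · intro i _; exact Finset.mem_range.2 (ZMod.val_lt i)
        · intro i _ j _ h; exact ZMod.val_injective q h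
        · intro i hi
          exact ⟨(i : ZMod q), Finset.mem_univ _, ZMod.val_cast_of_lt (Finset.mem_range.1 hi)⟩
        · intro i _; rw [ZMod.natCast_zmod_val]
      rw [h1]
      have h2 : ∑ i : ZMod q, w₀ q N (t - i * Amb.sh (eAmb (q := q) N c).ζ a b k)
          = ∑ i : ZMod q, w₀ q N i := by
        apply Fintype.sum_bijective
          (fun i : ZMod q => t - i * Amb.sh (eAmb (q := q) N c).ζ a b k)
        · rw [← Finite.injective_iff_bijective]
          intro i j hij
          have : i * Amb.sh (eAmb (q := q) N c).ζ a b k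
              = j * Amb.sh (eAmb (q := q) N c).ζ a b k := by
            simpa using hij
          exact mul_right_cancel₀ hs this
        · intro i; rfl
      rw [h2, w₀_sum]
    · have hw : (eAmb (q := q) N c).w a b k = 0 := by
        simp only [eAmb, if_neg h]
      rw [hw]; simp

/-- **Large order**: an element with two nonzero coordinates has order divisible by `q ^ N`. -/
lemma Layer.pow_dvd (z : Layer Ω q N) {a b : Ω} (hab : a ≠ b) (ha : z.1.ζ a ≠ 0)
    (hb : z.1.ζ b ≠ 0) {n : ℕ} (hn : z ^ n = 1) : q ^ N ∣ n := by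
  classical
  have hqp : q.Prime := Fact.out
  set k : ZMod q := z.1.ζ b / z.1.ζ a with hk
  have hk0 : k ≠ 0 := div_ne_zero hb ha
  have hs : Amb.sh z.1.ζ a b k = 0 := by
    unfold Amb.sh
    rw [hk, div_mul_cancel₀ _ ha, sub_self]
  obtain ⟨-, h2⟩ := z.2 a b k
  have hm : Amb.mom z.1.ζ a b k = z.1.ζ a := by
    unfold Amb.mom; rw [if_pos ⟨hab, hk0⟩]
  rw [hm] at h2
  -- some value is a unit
  have h3 : ∃ t, Amb.red N (z.1.w a b k t) ≠ 0 := by
    by_contra hcon
    push Not at hcon
    apply ha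
    rw [← h2]
    apply Finset.sum_eq_zero
    intro t _
    rw [hcon t, mul_zero]
  obtain ⟨t, ht⟩ := h3
  have h4 : (z.1 ^ n).w a b k t = 0 := by
    have : z.1 ^ n = 1 := congrArg Subtype.val hn
    rw [this, Amb.one_w]
  rw [Amb.pow_w, hs] at h4
  simp only [mul_zero, sub_zero, Finset.sum_const, Finset.card_range] at h4
  -- unit
  have hu : IsUnit (z.1.w a b k t) := by
    have : NeZero (q ^ N) := ⟨pow_ne_zero _ hqp.ne_zero⟩
    obtain ⟨v, hv⟩ : ∃ v : ℕ, (v : ZMod (q ^ N)) = z.1.w a b k t :=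
      ⟨(z.1.w a b k t).val, ZMod.natCast_zmod_val _⟩
    rw [← hv] at ht ⊢
    rw [map_natCast] at ht
    rw [ZMod.isUnit_iff_coprime]
    apply Nat.Coprime.pow_right
    rw [Nat.coprime_comm, Nat.Prime.coprime_iff_not_dvd hqp]
    intro hdvd
    exact ht ((ZMod.natCast_eq_zero_iff _ _).2 hdvd)
  have h5 : (n : ZMod (q ^ N)) = 0 := by
    rw [nsmul_eq_mul] at h4
    exact (hu.mul_left_eq_zero).1 h4
  exact (ZMod.natCast_eq_zero_iff _ _).1 h5

end Layer

end Pool.Agent.Lib.MP_a1de5b_al
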