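import Pool.Agent.Lib.MP_a1de5b_al.Grp

/-!
# Rigidity of embeddings into `G`, and the limit map
-/

namespace Pool.Agent.Lib.MP_a1de5b_al

open Function Filter

/-- evaluation at a coordinate -/
noncomputable def ev (m : ℕ) : W →* A m := Pi.evalMonoidHom _ m

lemma ev_apply (m : ℕ) (a : W) : ev m a = a m := rfl

/-- breaking, applied to a finite group mapping to `G` -/
lemma brk_apply {X : Type} [Group X] [Finite X] (f : X →* W) (hf : ∀ x, f x ∈ G) {x e : X}
    {j k : ℕ} (hx : x ^ p j ^ k = 1) (hχx : χP (f x) = 1) (he : e ^ p (j + 1) = 1)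
    (hχe : χP (f e) j ≠ 1) {m : ℕ} (hjm : j < m) (hm : Nat.card X ≤ m + 1) : f x m = 1 := by
  by_contra hne
  let F : X →* A m := (ev m).comp f
  have h1 : χ m (F x) = 1 := by
    change χ m (f x m) = 1
    rw [(hf x).2.1, hχx, map_one]
  have h2 : χ m (F e) j ≠ 1 := by
    change χ m (f e m) j ≠ 1
    rw [(hf e).2.1.apply hjm]; exact hχe
  obtain ⟨z, hz, hz2⟩ := brkA hjm (F x) (F e) hne ⟨k, by rw [← map_pow, hx, map_one]⟩ h1
    (by rw [← map_pow, he, map_one]) h2
  have h4 : Subgroup.closure {F x, F e} = (Subgroup.closure {x, e}).map F := by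
    rw [MonoidHom.map_closure, Set.image_pair]
  rw [h4] at hz
  obtain ⟨z', hz', rfl⟩ := hz
  have h5 : orderOf (F z') ≤ Nat.card X :=
    (Nat.le_of_dvd (orderOf_pos z') (orderOf_map_dvd F z')).trans (orderOf_le_card)
  omega

/-- finding the element `e` -/
lemma exists_a0 {j : ℕ} (ψ : A (j + 1) →* W) (hψ : Injective ψ) :
    ∃ a, a ^ p (j + 1) = 1 ∧ ψ a (j + 1) = σ (j + 1) (β j) := by
  obtain ⟨a, ha⟩ := coord_bij ψ hψ (σ (j + 1) (β j))
  have ha' : ψ a (j + 1) = σ (j + 1) (β j) := ha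
  refine ⟨a, ?_, ha'⟩
  apply coord_inj ψ hψ
  change ψ (a ^ p (j + 1)) (j + 1) = ψ 1 (j + 1)
  rw [map_pow, Pi.pow_apply, ha', ← map_pow, β_pow, map_one, map_one]; rfl

lemma χP_a0 {j : ℕ} {w : W} (h : w (j + 1) = σ (j + 1) (β j)) : χP w j = β j j := by
  rw [χP_apply, h, χσ, trunc_apply, if_pos (by omega)]

/-- the elements of `ker χ` placed at one coordinate -/
noncomputable def sg {m n : ℕ} (h : m < n) : (χ m).ker →* E n where
  toFun a := ⟨Pi.mulSingle m a.1, mulSingle_mem_E h a.2⟩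
  map_one' := by
    apply Subtype.ext
    simp
  map_mul' a b := by
    apply Subtype.ext
    change (Pi.mulSingle m ((a * b : (χ m).ker) : A m) : W) = Pi.mulSingle m a.1 * Pi.mulSingle m b.1
    rw [← Pi.mulSingle_mul]; rfl

lemma sg_coe {m n : ℕ} (h : m < n) (a : (χ m).ker) : ((sg h a : E n) : W) = Pi.mulSingle m a.1 := rfl

lemma rigid_le {m M : ℕ} (ψ : E (M + 1) →* W) (hψ : Injective ψ)
    (a : (χ m).ker) (hm : m < M + 1) {m' : ℕ} (hm' : m' ≠ m)
    (hm'M : m' ≤ M) : ψ (sg hm a) m' = 1 := by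
  have hlt : m' < M + 1 := by omega
  let Y : L m' → E (M + 1) := fun y => sg hlt ⟨y.1, χ_of_L y.2⟩
  have hYpow : ∀ y : L m', Y y ^ ℓ m' = 1 := by
    intro y
    change (sg hlt ⟨y.1, χ_of_L y.2⟩) ^ ℓ m' = 1
    rw [← map_pow]
    have : (⟨y.1, χ_of_L y.2⟩ : (χ m').ker) ^ ℓ m' = 1 := by
      apply Subtype.ext
      exact L_pow y.2
    rw [this, map_one]
  have hYmem : ∀ y : L m', ψ (Y y) m' ∈ L m' := by
    intro y
    apply mem_L
    rw [← Pi.pow_apply, ← map_pow, hYpow, map_one]; rfl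
  have hYne : ∀ y : L m', ∀ k, k ≠ m' → ψ (Y y) k = 1 := by
    intro y k hk
    apply eq_one_of_ℓ (i := m') (k := 1) (Ne.symm hk)
    rw [pow_one, ← Pi.pow_apply, ← map_pow, hYpow, map_one]; rfl
  let g : L m' → L m' := fun y => ⟨ψ (Y y) m', hYmem y⟩
  have hginj : Injective g := by
    intro y y' h
    have h1 : ψ (Y y) = ψ (Y y') := by
      funext k
      by_cases hk : k = m'
      · subst hk; exact congrArg Subtype.val h
      · rw [hYne y k hk, hYne y' k hk]
    have h2 := congrArg (fun w : E (M + 1) => w.1 m') (hψ h1)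
    have h3 : (Pi.mulSingle m' y.1 : W) m' = (Pi.mulSingle m' y'.1 : W) m' := h2
    rw [Pi.mulSingle_eq_same, Pi.mulSingle_eq_same] at h3
    exact Subtype.ext h3
  have hgsurj : Surjective g := Finite.injective_iff_surjective.1 hginj
  have hcent : ψ (sg hm a) m' ∈ L m' := by
    apply L_cent
    intro y hy
    obtain ⟨z, hz⟩ := hgsurj ⟨y, hy⟩
    have hz' : ψ (Y z) m' = y := congrArg Subtype.val hz
    rw [← hz']
    have h1 : sg hm a * Y z = Y z * sg hm a := by
      apply Subtype.ext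
      change (Pi.mulSingle m a.1 : W) * Pi.mulSingle m' z.1 = Pi.mulSingle m' z.1 * Pi.mulSingle m a.1
      exact (Pi.mulSingle_commute (Ne.symm hm') _ _).eq
    have h2 := congrArg (fun w : W => w m') (congrArg ψ h1)
    simp only [map_mul, Pi.mul_apply] at h2
    exact h2
  have h1 : (ψ (sg hm a) m') ^ ℓ m' = 1 := L_pow hcent
  have h2 : (ψ (sg hm a) m') ^ Nat.card (A m) = 1 := by
    rw [← Pi.pow_apply, ← map_pow, ← map_pow]
    have : a ^ Nat.card (A m) = 1 := by
      apply Subtype.ext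
      change a.1 ^ _ = 1
      exact pow_card_eq_one'
    rw [this, map_one, map_one]; rfl
  exact eq_one_of_coprime_pow ((Nat.Prime.coprime_iff_not_dvd (ℓ_prime m')).2 (ℓ_not_dvd hm')) h1 h2

theorem rigid_single {m M : ℕ} (hM : Nat.card (E (m + 2)) ≤ M + 1) (hM2 : m + 2 ≤ M)
    (ψ : E (M + 1) →* W) (hψ : Injective ψ) (hG : ∀ x, ψ x ∈ G) (hm : m < M + 1)
    (a : (χ m).ker) {m' : ℕ} (hm' : m' ≠ m) : ψ (sg hm a) m' = 1 := by
  by_cases hm'M : m' ≤ M
  · exact rigid_le ψ hψ a hm hm' hm'M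
  push Not at hm'M
  -- the primary decomposition
  let F : (χ m).ker →* A m' := (ev m').comp (ψ.comp (sg hm))
  change F a = 1
  have hfin : IsOfFinOrder a := isOfFinOrder_of_finite a
  apply eq_one_of_primary F a hfin
  intro q hq hqa
  set x := a ^ (orderOf a / q ^ (orderOf a).factorization q) with hx
  have hxpow : x ^ q ^ (orderOf a).factorization q = 1 := primary_pow a q
  set k := (orderOf a).factorization q with hk
  have hq2 : q ∣ Nat.card (A m) := by
    have h1 : orderOf a ∣ Nat.card (χ m).ker := orderOf_dvd_natCard _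
    exact hqa.trans (h1.trans (Subgroup.card_subgroup_dvd_card _))
  rcases primesA hq hq2 with h | ⟨j, hj, h⟩
  · apply eq_one_of_ℓ (i := m) (k := k) (Ne.symm hm')
    rw [← map_pow, ← h, hxpow, map_one]
  · -- breaking
    have hle : E (m + 2) ≤ E (M + 1) := E_mono (by omega)
    have hιm : ∀ b : A (j + 1), ι (j + 1) b ∈ E (m + 2) := fun b => ι_mem_E (by omega) b
    let ι' : A (j + 1) →* E (m + 2) := (ι (j + 1)).codRestrict (E (m + 2)) hιm
    let f : E (m + 2) →* W := ψ.comp (Subgroup.inclusion hle)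
    have hf : Injective f := hψ.comp (Subgroup.inclusion_injective hle)
    have hι' : Injective ι' := by
      intro b c hbc
      exact ι_inj (j + 1) (congrArg Subtype.val hbc)
    obtain ⟨a0, h1, h2⟩ := exists_a0 (f.comp ι') (hf.comp hι')
    have hfx : ∀ x : (χ m).ker, f (sg (by omega) x) = ψ (sg hm x) := fun x => rfl
    have hχx : χP (f (sg (by omega : m < m + 2) x)) = 1 := by
      funext i
      by_cases hi : i < m
      · have h3 : ψ (sg hm x) (m + 1) = 1 := rigid_le ψ hψ x hm (by omega) (by omega)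
        rw [hfx, ← ((hG _).2.1.apply (by omega : i < m + 1)), h3, map_one]
      · apply P_eq_one_of_pow (r := Nat.card (A m)) _ (p_not_dvd (by omega))
        rw [← map_pow, ← map_pow, ← map_pow]
        have : x ^ Nat.card (A m) = 1 := by
          apply Subtype.ext
          change x.1 ^ _ = 1
          exact pow_card_eq_one'
        rw [this, map_one, map_one, map_one]
    have hres := brk_apply f (fun x => hG _) (x := sg (by omega : m < m + 2) x) (e := ι' a0)
      (j := j) (k := k) (by rw [← map_pow, ← h, hxpow, map_one]) hχx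
      (by rw [← map_pow, h1, map_one])
      (by
        have h3 : f (ι' a0) (j + 1) = σ (j + 1) (β j) := h2
        rw [χP_a0 h3]; exact β_ne j)
      (m := m') (by omega) (by omega)
    exact hres

/-! ### the limit map -/

section limit

variable {H : Type} [Group H]

theorem exists_rho
    (hH : ∀ K : Subgroup H, K.FG → ∃ f : K →* W, Injective f ∧ ∀ x, f x ∈ G) :
    ∃ ρ : H →* W, ∀ (K : Subgroup H), Finite K → ∀ M : ℕ, ∃ f : K →* W, Injective f ∧
      (∀ x, f x ∈ G) ∧ ∀ x : K, ∀ m ≤ M, f x m = ρ x m := by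
  classical
  have h0 : ∀ S : Finset H, ∃ f : Subgroup.closure (S : Set H) →* W,
      Injective f ∧ ∀ x, f x ∈ G := fun S => hH _ ⟨S, rfl⟩
  choose F hFinj hFG using h0
  let f' : Finset H → H → W := fun S h =>
    if hh : h ∈ Subgroup.closure (S : Set H) then F S ⟨h, hh⟩ else 1
  have hf' : ∀ (S : Finset H) (h : H) (hh : h ∈ Subgroup.closure (S : Set H)),
      f' S h = F S ⟨h, hh⟩ := fun S h hh => dif_pos hh
  let 𝒰 : Ultrafilter (Finset H) := Ultrafilter.of atTop
  have h𝒰 : ∀ S₀ : Finset H, ∀ᶠ S in (𝒰 : Filter (Finset H)), S₀ ⊆ S := by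
    intro S₀
    exact (Ultrafilter.of_le atTop) (eventually_ge_atTop S₀)
  have hlim : ∀ (h : H) (m : ℕ), ∃ a : A m, ∀ᶠ S in (𝒰 : Filter (Finset H)), f' S h m = a := by
    intro h m
    obtain ⟨a, ha⟩ := Ultrafilter.eq_pure_of_finite (𝒰.map (fun S => f' S h m))
    refine ⟨a, ?_⟩
    have h1 : {a} ∈ (𝒰.map (fun S => f' S h m)) := by
      rw [ha]; exact Filter.mem_pure.2 rfl
    exact h1
  choose r hr using hlim
  have hmem : ∀ h : H, ∀ᶠ S : Finset H in (𝒰 : Filter (Finset H)), h ∈ Subgroup.closure (S : Set H) := by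
    intro h
    filter_upwards [h𝒰 {h}] with S hS
    apply Subgroup.subset_closure
    exact_mod_cast hS (Finset.mem_singleton_self h)
  have hmul : ∀ x y m, r (x * y) m = r x m * r y m := by
    intro x y m
    obtain ⟨S, h1, h2, h3, h4, h5⟩ := ((hr x m).and ((hr y m).and ((hr (x * y) m).and
      ((hmem x).and (hmem y))))).exists
    rw [← h1, ← h2, ← h3, hf' S x h4, hf' S y h5, hf' S (x * y) (Subgroup.mul_mem _ h4 h5),
      ← Pi.mul_apply, ← map_mul]
    rfl
  let ρ : H →* W := MonoidHom.mk' r (by intro x y; funext m; exact hmul x y m)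
  refine ⟨ρ, ?_⟩
  intro K hK M
  have h1 : ∀ᶠ S in (𝒰 : Filter (Finset H)), ∀ x : K, ∀ m : Fin (M + 1), f' S x m = r x m := by
    rw [Filter.eventually_all]
    intro x
    rw [Filter.eventually_all]
    intro m
    exact hr x m
  have h2 : ∀ᶠ S : Finset H in (𝒰 : Filter (Finset H)), ∀ x : K, (x : H) ∈ Subgroup.closure (S : Set H) := by
    rw [Filter.eventually_all]
    intro x
    exact hmem x
  obtain ⟨S, h3, h4⟩ := (h1.and h2).exists
  have hle : K ≤ Subgroup.closure (S : Set H) := fun x hx => h4 ⟨x, hx⟩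
  refine ⟨(F S).comp (Subgroup.inclusion hle), (hFinj S).comp (Subgroup.inclusion_injective hle),
    fun x => hFG S _, ?_⟩
  intro x m hm
  have h5 := h3 x ⟨m, by omega⟩
  rw [hf' S x (h4 x)] at h5
  exact h5

end limit

end Pool.Agent.Lib.MP_a1de5b_al
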