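import Pool.Agent.Lib.MP_a1de5b_al.Basic
import Pool.Agent.Lib.MP_a1de5b_al.Layer

/-!
# Stages: the finite groups `Q_i`
-/

namespace Pool.Agent.Lib.MP_a1de5b_al

open Function

/-- breaking property -/
def Brk {X : Type} [Group X] (χ : X →* P) (N j : ℕ) : Prop :=
  ∀ y g : X, y ≠ 1 → (∃ k, y ^ (p j) ^ k = 1) → χ y = 1 → g ^ p (j + 1) = 1 → χ g j ≠ 1 →
    ∃ z ∈ Subgroup.closure {y, g}, N ≤ orderOf z

/-- conjugacy property -/
def Cnj {X : Type} [Group X] (χ : X →* P) (σ : P →* X) (n : ℕ) : Prop :=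
  ∀ u : ℕ → X, (∀ j ≤ n, u j ^ p (j + 1) = 1) → (∀ j ≤ n, χ (u j) = β j) →
    (∀ j ≤ n, ∀ k ≤ n, Commute (u j) (u k)) → ∃ a, ∀ j < n, u j = a * σ (β j) * a⁻¹

section lift

variable {X X' : Type} [Group X] [Group X'] [Finite X'] {π : X' →* X}

/-- an element of `q`-power order in a subgroup of order prime to `q` is trivial -/
lemma eq_one_of_coprime {X : Type*} [Group X] (K : Subgroup X) {q : ℕ} (hq : q.Prime)
    (hK : ¬ q ∣ Nat.card K) {y : X} (hy : y ∈ K) {k : ℕ} (hyk : y ^ q ^ k = 1) : y = 1 := by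
  have h1 : orderOf y ∣ q ^ k := orderOf_dvd_of_pow_eq_one hyk
  have h2 : orderOf y ∣ Nat.card K := by
    have : orderOf (⟨y, hy⟩ : K) ∣ Nat.card K := orderOf_dvd_natCard _
    rwa [Subgroup.orderOf_mk] at this
  obtain ⟨j, hj, hj2⟩ := (Nat.dvd_prime_pow hq).1 h1
  rcases Nat.eq_zero_or_pos j with h | h
  · rw [h, pow_zero] at hj2
    exact orderOf_eq_one_iff.1 hj2
  · exfalso
    apply hK
    exact (dvd_pow_self q (by omega)).trans (hj2 ▸ h2)

/-- same for a whole group -/
lemma eq_one_of_coprime' {X : Type*} [Group X] {q : ℕ} (hq : q.Prime)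
    (hK : ¬ q ∣ Nat.card X) {y : X} {k : ℕ} (hyk : y ^ q ^ k = 1) : y = 1 := by
  refine eq_one_of_coprime (⊤ : Subgroup X) hq ?_ (Subgroup.mem_top y) hyk
  rwa [Subgroup.card_top]

lemma Brk.lift {χ : X →* P} {χ' : X' →* P} {i N j : ℕ} (h : Brk χ N j) (hj : j < i)
    (hχ : ∀ x, trunc i (χ' x) = χ (π x)) (hK : ¬ p j ∣ Nat.card π.ker) : Brk χ' N j := by
  intro y g hy1 hyk hyχ hg hgχ
  obtain ⟨k, hk⟩ := hyk
  have h1 : π y ≠ 1 := by
    intro h1
    exact hy1 (eq_one_of_coprime π.ker (p_prime j) hK h1 hk)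
  have h2 : χ (π y) = 1 := by rw [← hχ, hyχ, map_one]
  have h3 : χ (π g) j ≠ 1 := by
    rw [← hχ, trunc_apply, if_pos hj]; exact hgχ
  obtain ⟨z, hz, hz2⟩ := h (π y) (π g) h1 ⟨k, by rw [← map_pow, hk, map_one]⟩ h2
    (by rw [← map_pow, hg, map_one]) h3
  have h4 : Subgroup.closure {π y, π g} = (Subgroup.closure {y, g}).map π := by
    rw [MonoidHom.map_closure, Set.image_pair]
  rw [h4] at hz
  obtain ⟨z', hz', rfl⟩ := hz
  refine ⟨z', hz', hz2.trans ?_⟩
  exact Nat.le_of_dvd (orderOf_pos z') (orderOf_map_dvd π z')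

/-- lifting a conjugacy relation -/
lemma cnj_aux (hπ : Surjective π) {σ : P →* X} {σ' : P →* X'} (hσ : ∀ b, π (σ' b) = σ b)
    {n : ℕ} (hK : ∀ j < n, ¬ p (j + 1) ∣ Nat.card π.ker) (u : ℕ → X')
    (hu : ∀ j < n, u j ^ p (j + 1) = 1) (huc : ∀ j < n, ∀ k < n, Commute (u j) (u k))
    (a : X) (ha : ∀ j < n, π (u j) = a * σ (β j) * a⁻¹) :
    ∃ a', ∀ j < n, u j = a' * σ' (β j) * a'⁻¹ := by
  obtain ⟨a', rfl⟩ := hπ a
  obtain ⟨ν, -, hν⟩ := ccl π.ker n hK u (fun j => a' * σ' (β j) * a'⁻¹) hu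
    (by
      intro j _
      rw [conj_pow, ← map_pow, β_pow, map_one]; group)
    huc
    (by
      intro j _ k _
      have : Commute (σ' (β j)) (σ' (β k)) := (Commute.all (β j) (β k)).map σ'
      exact Commute.conj_iff a' |>.2 this)
    (by
      intro j hj
      rw [MonoidHom.mem_ker, map_mul, map_inv, ha j hj, map_mul, map_mul, map_inv, hσ]
      group)
  refine ⟨ν * a', ?_⟩
  intro j hj
  rw [hν j hj]; group

lemma Cnj.lift {χ : X →* P} {χ' : X' →* P} {σ : P →* X} {σ' : P →* X'} {i n : ℕ}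
    (h : Cnj χ σ n) (hn : n < i) (hπ : Surjective π)
    (hχ : ∀ x, trunc i (χ' x) = χ (π x)) (hσ : ∀ b, π (σ' b) = σ b)
    (hK : ∀ j < n, ¬ p (j + 1) ∣ Nat.card π.ker) : Cnj χ' σ' n := by
  intro u hu huχ huc
  obtain ⟨a, ha⟩ := h (fun j => π (u j)) (fun j hj => by rw [← map_pow, hu j hj, map_one])
    (fun j hj => by rw [← hχ, huχ j hj, trunc_β (by omega)])
    (fun j hj k hk => (huc j hj k hk).map π)
  exact cnj_aux hπ hσ hK u (fun j hj => hu j (by omega))
    (fun j hj k hk => huc j (by omega) k (by omega)) a ha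

end lift

/-- The stage structure. -/
structure Stage (N i : ℕ) where
  /-- the group -/
  Q : Type
  [grp : Group Q]
  [fin : Finite Q]
  /-- the character -/
  χ : Q →* P
  /-- the section -/
  σ : P →* Q
  χσ : ∀ b, χ (σ b) = trunc i b
  σt : ∀ b, σ (trunc i b) = σ b
  tχ : ∀ x, trunc i (χ x) = χ x
  primes : ∀ r, r.Prime → r ∣ Nat.card Q → ∃ j ≤ i, r = p j
  solv : Group.IsSolvable Q
  brk : ∀ j < i, Brk χ N j
  cnj : ∀ n < i, Cnj χ σ n
  base : ∃ x, χ x = 1 ∧ orderOf x = p 0

attribute [instance] Stage.grp Stage.fin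

lemma trunc_zero (b : P) : trunc 0 b = 1 := by
  funext i; simp [trunc_apply]

/-- Stage zero. -/
noncomputable def stageZero (N : ℕ) : Stage N 0 where
  Q := Multiplicative (ZMod (p 0))
  χ := 1
  σ := 1
  χσ b := by rw [trunc_zero]; rfl
  σt b := rfl
  tχ x := by rw [trunc_zero]; rfl
  primes r hr h := by
    refine ⟨0, le_rfl, ?_⟩
    have : Nat.card (Multiplicative (ZMod (p 0))) = p 0 := by simp
    rw [this] at h
    exact (Nat.prime_dvd_prime_iff_eq hr (p_prime 0)).1 h
  solv := by infer_instance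
  brk j hj := by omega
  cnj n hn := by omega
  base := by
    refine ⟨Multiplicative.ofAdd 1, rfl, ?_⟩
    rw [orderOf_ofAdd_eq_addOrderOf, ZMod.addOrderOf_one]

section step

variable {N i : ℕ} [NeZero N] (S : Stage N i)

/-- the coset space -/
abbrev Om : Type := S.Q ⧸ S.σ.range

/-- the layer -/
abbrev Zl : Type := Layer (Om S) (p (i + 1)) N

/-- the extension -/
abbrev Xn : Type := Zl S ⋊[MulDistribMulAction.toMulAut S.Q (Zl S)] S.Q

instance : Finite (Om S) := inferInstance

instance : Finite (Zl S) := inferInstance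

instance : Finite (Xn S) := Finite.of_equiv _ (SemidirectProduct.equivProd).symm

/-- sum of coordinates -/
noncomputable def tot : Zl S →* Multiplicative (ZMod (p (i + 1))) :=
  have := Fintype.ofFinite (Om S)
  { toFun := fun z => Multiplicative.ofAdd (∑ c, z.1.ζ c)
    map_one' := by
      change Multiplicative.ofAdd (∑ c, (1 : Amb (Om S) (p (i + 1)) N).ζ c) = 1
      rw [Amb.one_ζ]; simp
    map_mul' := by
      intro x y
      change Multiplicative.ofAdd (∑ c, (x.1 * y.1).ζ c) = _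
      rw [Amb.mul_ζ, ← ofAdd_add, ← Finset.sum_add_distrib]; rfl }

lemma tot_apply (z : Zl S) [Fintype (Om S)] : tot S z = Multiplicative.ofAdd (∑ c, z.1.ζ c) := by
  unfold tot
  simp only [MonoidHom.coe_mk, OneHom.coe_mk]
  rw [Subsingleton.elim (Fintype.ofFinite (Om S)) ‹Fintype (Om S)›]

lemma tot_smul (g : S.Q) (z : Zl S) : tot S (g • z) = tot S z := by
  have := Fintype.ofFinite (Om S)
  rw [tot_apply, tot_apply]
  congr 1
  apply Fintype.sum_equiv (MulAction.toPerm g⁻¹)
  intro c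
  rfl

/-- the base coset -/
noncomputable def c₀ : Om S := ((1 : S.Q) : S.Q ⧸ S.σ.range)

omit [NeZero N] in
lemma σ_smul_c₀ (b : P) : S.σ b • c₀ S = c₀ S := by
  change ((S.σ b * 1 : S.Q) : Om S) = ((1 : S.Q) : Om S)
  rw [QuotientGroup.eq, mul_one, mul_one, ← mul_one (S.σ b)⁻¹]
  exact Subgroup.mul_mem _ (Subgroup.inv_mem _ ⟨b, rfl⟩) (Subgroup.one_mem _)

lemma tot_e (c : Om S) : tot S (Layer.e c) = Multiplicative.ofAdd 1 := by
  classical
  have := Fintype.ofFinite (Om S)
  rw [tot_apply, Layer.e_ζ]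
  simp

/-- the section into the layer -/
noncomputable def Esec : Multiplicative (ZMod (p (i + 1))) →* Zl S where
  toFun x := (Layer.e (c₀ S)) ^ x.toAdd.val
  map_one' := by simp
  map_mul' x y := by
    rw [← pow_add, toAdd_mul, ZMod.val_add]
    rw [← pow_mod_orderOf, ← pow_mod_orderOf _ (x.toAdd.val + y.toAdd.val)]
    congr 1
    apply Nat.mod_mod_of_dvd
    exact orderOf_dvd_of_pow_eq_one (Layer.e_pow _)

lemma tot_Esec (x : Multiplicative (ZMod (p (i + 1)))) : tot S (Esec S x) = x := by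
  change tot S ((Layer.e (c₀ S)) ^ x.toAdd.val) = x
  rw [map_pow, tot_e, ← ofAdd_nsmul]
  simp

lemma smul_Esec (b : P) (x : Multiplicative (ZMod (p (i + 1)))) :
    S.σ b • Esec S x = Esec S x := by
  change S.σ b • ((Layer.e (c₀ S)) ^ x.toAdd.val) = (Layer.e (c₀ S)) ^ x.toAdd.val
  rw [smul_pow', Layer.smul_e, σ_smul_c₀]

/-- the new character -/
noncomputable def χn : Xn S →* P where
  toFun x := S.χ x.right * Pi.mulSingle i (tot S x.left)
  map_one' := by simp
  map_mul' x y := by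
    rw [SemidirectProduct.mul_left, SemidirectProduct.mul_right, map_mul, map_mul,
      MulDistribMulAction.toMulAut_apply, MulDistribMulAction.toMulEquiv_apply, tot_smul,
      Pi.mulSingle_mul]
    exact mul_mul_mul_comm _ _ _ _

/-- the new section -/
noncomputable def σn : P →* Xn S where
  toFun b := ⟨Esec S (b i), S.σ b⟩
  map_one' := by
    ext1
    · simp
    · simp
  map_mul' a b := by
    ext1
    · rw [SemidirectProduct.mul_left]
      change Esec S ((a * b) i) = Esec S (a i) * (MulDistribMulAction.toMulAut S.Q (Zl S)) (S.σ a) (Esec S (b i))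
      rw [MulDistribMulAction.toMulAut_apply, MulDistribMulAction.toMulEquiv_apply, smul_Esec,
        Pi.mul_apply, map_mul]
    · rw [SemidirectProduct.mul_right]
      change S.σ (a * b) = _
      rw [map_mul]

lemma χn_apply (x : Xn S) : χn S x = S.χ x.right * Pi.mulSingle i (tot S x.left) := rfl
lemma σn_left (b : P) : (σn S b).left = Esec S (b i) := rfl
lemma σn_right (b : P) : (σn S b).right = S.σ b := rfl

lemma trunc_mulSingle_lt {n j : ℕ} (h : j < n) (v : Multiplicative (ZMod (p (j + 1)))) :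
    trunc n (Pi.mulSingle j v) = Pi.mulSingle j v := by
  funext k
  rw [trunc_apply]
  by_cases hk : k < n
  · rw [if_pos hk]
  · rw [if_neg hk]
    have : k ≠ j := by omega
    simp [this]

lemma trunc_mulSingle_self (n : ℕ) (v : Multiplicative (ZMod (p (n + 1)))) :
    trunc n (Pi.mulSingle n v) = 1 := by
  funext k
  rw [trunc_apply]
  by_cases hk : k < n
  · rw [if_pos hk]
    have : k ≠ n := by omega
    simp [this]
  · rw [if_neg hk]; rfl

lemma trunc_succ (n : ℕ) (b : P) : trunc (n + 1) b = trunc n b * Pi.mulSingle n (b n) := by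
  funext k
  rw [Pi.mul_apply, trunc_apply, trunc_apply]
  rcases lt_trichotomy k n with h | h | h
  · rw [if_pos (by omega), if_pos h, Pi.mulSingle_eq_of_ne (by omega), mul_one]
  · subst h
    rw [if_pos (by omega), if_neg (by omega), Pi.mulSingle_eq_same, one_mul]
  · rw [if_neg (by omega), if_neg (by omega), Pi.mulSingle_eq_of_ne (by omega), mul_one]

lemma χn_σn (b : P) : χn S (σn S b) = trunc (i + 1) b := by
  rw [χn_apply, σn_left, σn_right, S.χσ, tot_Esec, trunc_succ]

lemma σn_trunc (b : P) : σn S (trunc (i + 1) b) = σn S b := by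
  ext1
  · rw [σn_left, σn_left, trunc_apply, if_pos (by omega)]
  · rw [σn_right, σn_right, ← S.σt, trunc_of_ge (by omega), S.σt]

lemma trunc_χn (x : Xn S) : trunc (i + 1) (χn S x) = χn S x := by
  rw [χn_apply, map_mul, trunc_mulSingle_lt (by omega)]
  congr 1
  rw [← S.tχ, trunc_of_le (by omega)]

lemma trunc_χn' (x : Xn S) :
    trunc i (χn S x) = S.χ ((SemidirectProduct.rightHom : Xn S →* S.Q) x) := by
  rw [χn_apply, map_mul, trunc_mulSingle_self, mul_one, S.tχ]; rfl

lemma card_Zl : ∃ k, Nat.card (Zl S) = p (i + 1) ^ k :=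
  IsPGroup.iff_card.1 Layer.isPGroup

lemma card_ker : Nat.card (SemidirectProduct.rightHom : Xn S →* S.Q).ker = Nat.card (Zl S) := by
  rw [← SemidirectProduct.range_inl_eq_ker_rightHom]
  exact (Nat.card_congr (MonoidHom.ofInjective SemidirectProduct.inl_injective).toEquiv).symm

lemma not_dvd_ker {j : ℕ} (hj : j ≠ i + 1) :
    ¬ p j ∣ Nat.card (SemidirectProduct.rightHom : Xn S →* S.Q).ker := by
  rw [card_ker]
  obtain ⟨k, hk⟩ := card_Zl S
  rw [hk]
  intro h
  have h1 := (p_prime j).dvd_of_dvd_pow h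
  have h2 := (Nat.prime_dvd_prime_iff_eq (p_prime j) (p_prime (i + 1))).1 h1
  exact hj (p_inj h2)

omit [NeZero N] in
lemma not_dvd_Q {j : ℕ} (hj : i < j) : ¬ p j ∣ Nat.card S.Q := by
  intro h
  obtain ⟨k, hk, hk2⟩ := S.primes _ (p_prime j) h
  have := p_inj hk2
  omega

lemma primes_Xn : ∀ r, r.Prime → r ∣ Nat.card (Xn S) → ∃ j ≤ i + 1, r = p j := by
  intro r hr h
  rw [SemidirectProduct.card] at h
  rcases (Nat.Prime.dvd_mul hr).1 h with h1 | h1
  · obtain ⟨k, hk⟩ := card_Zl S
    rw [hk] at h1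
    exact ⟨i + 1, le_rfl, (Nat.prime_dvd_prime_iff_eq hr (p_prime _)).1 (hr.dvd_of_dvd_pow h1)⟩
  · obtain ⟨j, hj, hj2⟩ := S.primes r hr h1
    exact ⟨j, by omega, hj2⟩

lemma solv_Xn : Group.IsSolvable (Xn S) := by
  have h1 : Group.IsSolvable (Zl S) := by
    have : Group.IsNilpotent (Zl S) := IsPGroup.isNilpotent (p := p (i + 1)) Layer.isPGroup
    infer_instance
  have h2 := S.solv
  exact Group.isSolvable_of_ker_le_range (SemidirectProduct.inl) (SemidirectProduct.rightHom)
    (SemidirectProduct.range_inl_eq_ker_rightHom).ge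

/-- the elements of `p (i+1)`-power order lie in the layer -/
lemma right_eq_one {x : Xn S} {k : ℕ} (h : x ^ p (i + 1) ^ k = 1) : x.right = 1 := by
  apply eq_one_of_coprime' (p_prime (i + 1)) (not_dvd_Q S (Nat.lt_succ_self i)) (k := k)
  have := congrArg (SemidirectProduct.rightHom : Xn S →* S.Q) h
  rw [map_pow, map_one] at this
  exact this

lemma eq_inl {x : Xn S} (h : x.right = 1) : x = SemidirectProduct.inl x.left := by
  ext1
  · rfl
  · rw [h]; rfl

omit [NeZero N] in
/-- fixing the coset `r` -/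
lemma smul_mk_eq {x : S.Q} {r : S.Q} (h : x • (r : Om S) = (r : Om S)) :
    ∃ b, x = r * S.σ b * r⁻¹ := by
  have h1 : ((x * r : S.Q) : Om S) = (r : Om S) := h
  rw [eq_comm, QuotientGroup.eq] at h1
  obtain ⟨b, hb⟩ := h1
  refine ⟨b, ?_⟩
  rw [hb]; group

lemma exists_ζ_ne {z : Zl S} (h : tot S z ≠ 1) : ∃ c, z.1.ζ c ≠ 0 := by
  by_contra hcon
  push Not at hcon
  apply h
  have := Fintype.ofFinite (Om S)
  rw [tot_apply, Finset.sum_eq_zero (fun c _ => hcon c)]
  rfl

lemma brk_new : Brk (χn S) N i := by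
  intro y g hy1 hyk hyχ hg hgχ
  obtain ⟨k, hk⟩ := hyk
  have hN : 0 < N := Nat.pos_of_ne_zero (NeZero.ne N)
  have hpN : N ≤ p (i + 1) ^ N := (Nat.lt_pow_self (p_prime (i + 1)).one_lt).le
  have hχy : S.χ y.right = 1 := by
    have h1 := trunc_χn' S y
    rw [hyχ, map_one] at h1
    exact h1.symm
  have hyr : y.right ≠ 1 := by
    intro h1
    apply hy1
    apply eq_one_of_coprime (SemidirectProduct.rightHom : Xn S →* S.Q).ker (p_prime i)
      (not_dvd_ker S (by omega)) (k := k) _ hk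
    exact h1
  have hgr : g.right = 1 := right_eq_one S (k := 1) (by rw [pow_one]; exact hg)
  have htot : tot S g.left ≠ 1 := by
    intro h
    apply hgχ
    rw [χn_apply, hgr, map_one, one_mul, Pi.mulSingle_eq_same, h]
  obtain ⟨c, hc⟩ := exists_ζ_ne S htot
  have hord : ∀ z : Zl S, (∃ a b, a ≠ b ∧ z.1.ζ a ≠ 0 ∧ z.1.ζ b ≠ 0) →
      N ≤ orderOf (SemidirectProduct.inl z : Xn S) := by
    rintro z ⟨a, b, hab, ha, hb⟩
    rw [orderOf_injective _ SemidirectProduct.inl_injective]
    refine hpN.trans (Nat.le_of_dvd (orderOf_pos z) ?_)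
    exact Layer.pow_dvd z hab ha hb (pow_orderOf_eq_one z)
  by_cases hcase : ∃ d, d ≠ c ∧ g.left.1.ζ d ≠ 0
  · obtain ⟨d, hd, hd2⟩ := hcase
    refine ⟨g, Subgroup.subset_closure (by simp), ?_⟩
    rw [eq_inl S hgr]
    exact hord _ ⟨d, c, hd, hd2, hc⟩
  · push Not at hcase
    -- the commutator
    set z : Xn S := g⁻¹ * (y * g * y⁻¹) with hz
    have hzm : z ∈ Subgroup.closure {y, g} := by
      have h1 : y ∈ Subgroup.closure {y, g} := Subgroup.subset_closure (by simp)
      have h2 : g ∈ Subgroup.closure {y, g} := Subgroup.subset_closure (by simp)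
      exact Subgroup.mul_mem _ (Subgroup.inv_mem _ h2)
        (Subgroup.mul_mem _ (Subgroup.mul_mem _ h1 h2) (Subgroup.inv_mem _ h1))
    refine ⟨z, hzm, ?_⟩
    have hzr : z.right = 1 := by
      rw [hz]
      simp [hgr]
    have hzl : z.left = g.left⁻¹ * (y.left * (y.right • g.left) * y.left⁻¹) := by
      rw [hz]
      rw [SemidirectProduct.mul_left, SemidirectProduct.mul_left, SemidirectProduct.mul_left,
        SemidirectProduct.inv_left, SemidirectProduct.inv_left, SemidirectProduct.inv_right,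
        SemidirectProduct.mul_right, hgr, inv_one, map_one, mul_one, MulAut.one_apply,
        MulAut.one_apply]
      simp only [MulDistribMulAction.toMulAut_apply, MulDistribMulAction.toMulEquiv_apply,
        smul_smul, mul_inv_cancel, one_smul]
    have hζ : ∀ d, z.left.1.ζ d = - g.left.1.ζ d + g.left.1.ζ (y.right⁻¹ • d) := by
      intro d
      rw [hzl]
      change ((g.left.1)⁻¹ * (y.left.1 * (y.right • g.left.1) * (y.left.1)⁻¹)).ζ d = _
      rw [Amb.mul_ζ, Amb.mul_ζ, Amb.mul_ζ, Amb.inv_ζ, Amb.inv_ζ]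
      simp only [Pi.add_apply, Pi.neg_apply, Amb.smul_ζ]
      ring
    have hmove : y.right • c ≠ c := by
      intro h
      obtain ⟨r, hr⟩ := QuotientGroup.mk_surjective c
      rw [← hr] at h
      obtain ⟨b, hb⟩ := smul_mk_eq S h
      have h1 : S.χ (S.σ b) = 1 := by
        have h2 : S.σ b = r⁻¹ * y.right * r := by rw [hb]; group
        rw [h2, map_mul, map_mul, hχy, mul_one, map_inv, inv_mul_cancel]
      rw [S.χσ] at h1
      have h3 : S.σ b = 1 := by rw [← S.σt, h1, map_one]
      apply hyr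
      rw [hb, h3]; group
    rw [eq_inl S hzr]
    refine hord _ ⟨c, y.right • c, hmove.symm, ?_, ?_⟩
    · rw [hζ]
      have : y.right⁻¹ • c ≠ c := by
        intro h
        apply hmove
        rw [inv_smul_eq_iff] at h
        exact h.symm
      rw [hcase _ this, add_zero]
      exact neg_ne_zero.2 hc
    · rw [hζ, inv_smul_smul, hcase _ hmove, neg_zero, zero_add]
      exact hc

lemma cnj_new (hN : 2 ≤ N) : Cnj (χn S) (σn S) i := by
  intro u hu huχ huc
  have hq2 := (p_prime (i + 1)).two_le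
  have hur : (u i).right = 1 := right_eq_one S (k := 1) (by rw [pow_one]; exact hu i le_rfl)
  have htot : tot S (u i).left ≠ 1 := by
    intro h
    have h1 := huχ i le_rfl
    have h2 := congrFun h1 i
    rw [χn_apply, hur, map_one, one_mul, Pi.mulSingle_eq_same, h] at h2
    exact β_ne i h2.symm
  obtain ⟨c, hc⟩ := exists_ζ_ne S htot
  have hpow : (u i).left ^ p (i + 1) = 1 := by
    have h1 := hu i le_rfl
    rw [eq_inl S hur, ← map_pow] at h1
    exact SemidirectProduct.inl_injective h1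
  have huniq : ∀ d, (u i).left.1.ζ d ≠ 0 → d = c := by
    intro d hd
    by_contra hdc
    have h1 := Layer.pow_dvd (u i).left hdc hd hc hpow
    have h2 := Nat.le_of_dvd (by omega) h1
    have h3 : p (i + 1) ^ 2 ≤ p (i + 1) ^ N := Nat.pow_le_pow_right (by omega) hN
    nlinarith
  obtain ⟨r, rfl⟩ := QuotientGroup.mk_surjective c
  have hfix : ∀ j < i, (u j).right • (r : Om S) = (r : Om S) := by
    intro j hj
    have hcomm := huc j (by omega) i le_rfl
    have h1 : u i = u j * u i * (u j)⁻¹ := by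
      rw [hcomm.eq]; group
    have h2 : (u i).left = (u j).left * ((u j).right • (u i).left) * (u j).left⁻¹ := by
      conv_lhs => rw [h1]
      rw [SemidirectProduct.mul_left, SemidirectProduct.mul_left, SemidirectProduct.inv_left,
        SemidirectProduct.mul_right, hur, mul_one]
      simp only [MulDistribMulAction.toMulAut_apply, MulDistribMulAction.toMulEquiv_apply,
        smul_smul, mul_inv_cancel, one_smul]
    have h3 : ∀ d, (u i).left.1.ζ d = (u i).left.1.ζ ((u j).right⁻¹ • d) := by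
      intro d
      conv_lhs => rw [h2]
      change ((u j).left.1 * ((u j).right • (u i).left.1) * ((u j).left.1)⁻¹).ζ d = _
      rw [Amb.mul_ζ, Amb.mul_ζ, Amb.inv_ζ]
      simp only [Pi.add_apply, Pi.neg_apply, Amb.smul_ζ]
      ring
    apply huniq
    rw [h3, inv_smul_smul]
    exact hc
  apply cnj_aux (π := (SemidirectProduct.rightHom : Xn S →* S.Q))
    SemidirectProduct.rightHom_surjective (σ := S.σ) (σ' := σn S) (fun b => rfl)
    (fun j hj => not_dvd_ker S (by omega)) u (fun j hj => hu j (by omega))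
    (fun j hj k hk => huc j (by omega) k (by omega)) r
  intro j hj
  obtain ⟨b, hb⟩ := smul_mk_eq S (hfix j hj)
  have h1 : S.χ (u j).right = β j := by
    have h2 := trunc_χn' S (u j)
    rw [huχ j (by omega), trunc_β hj] at h2
    exact h2.symm
  have h3 : trunc i b = β j := by
    rw [← S.χσ, ← h1, hb, map_mul, map_mul, map_inv, mul_comm (S.χ r), mul_inv_cancel_right]
  change (u j).right = _
  rw [hb, ← S.σt b, h3]

/-- the step -/
noncomputable def stageSucc (hN : 2 ≤ N) : Stage N (i + 1) where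
  Q := Xn S
  χ := χn S
  σ := σn S
  χσ := χn_σn S
  σt := σn_trunc S
  tχ := trunc_χn S
  primes := primes_Xn S
  solv := solv_Xn S
  brk j hj := by
    rcases Nat.lt_succ_iff_lt_or_eq.1 hj with h | h
    · exact (S.brk j h).lift h (trunc_χn' S) (not_dvd_ker S (by omega))
    · subst h; exact brk_new S
  cnj n hn := by
    rcases Nat.lt_succ_iff_lt_or_eq.1 hn with h | h
    · exact (S.cnj n h).lift h SemidirectProduct.rightHom_surjective (trunc_χn' S) (fun b => rfl)
        (fun j hj => not_dvd_ker S (by omega))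
    · subst h; exact cnj_new S hN
  base := by
    obtain ⟨x, hx, hx2⟩ := S.base
    refine ⟨SemidirectProduct.inr x, ?_, ?_⟩
    · rw [χn_apply]; simp [hx]
    · rw [orderOf_injective _ SemidirectProduct.inr_injective]; exact hx2

end step

/-- all stages -/
noncomputable def stage (N : ℕ) [NeZero N] (hN : 2 ≤ N) : ∀ i, Stage N i
  | 0 => stageZero N
  | i + 1 => stageSucc (stage N hN i) hN

end Pool.Agent.Lib.MP_a1de5b_al
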